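import Mathlib

set_option autoImplicit false

/-!
# Periodic forms give chains
-/

namespace Pool.DynLehmerChain

open MvPolynomial

variable {K : Type*} [Field K] {σ : Type*}

/-- the second factor of a form is a form, if the first factor is a form -/
theorem isHomogeneous_right {p q : MvPolynomial σ K} {k e : ℕ} (hp : p.IsHomogeneous k)
    (hp0 : p ≠ 0) (hpq : (p * q).IsHomogeneous (k + e)) : q.IsHomogeneous e := by
  classical
  have h1 : p * q = p * homogeneousComponent e q := by
    have h2 : homogeneousComponent (k + e) (p * q) = p * q :=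
      homogeneousComponent_eq_self hpq
    rw [← h2]
    conv_lhs => rw [← sum_homogeneousComponent q, Finset.mul_sum, map_sum]
    have h3 : ∀ i ∈ Finset.range (q.totalDegree + 1),
        homogeneousComponent (k + e) (p * homogeneousComponent i q) =
          if i = e then p * homogeneousComponent e q else 0 := by
      intro i _
      rw [homogeneousComponent_of_mem (m := k + e) (n := k + i)
        ((mem_homogeneousSubmodule _ _).mpr (hp.mul (homogeneousComponent_isHomogeneous i q)))]
      by_cases hi : i = e
      · simp [hi]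
      · rw [if_neg hi, if_neg (by omega)]
    rw [Finset.sum_congr rfl h3, Finset.sum_ite_eq']
    split_ifs with hmem
    · rfl
    · rw [homogeneousComponent_eq_zero, mul_zero]
      simpa using hmem
  have h4 := mul_left_cancel₀ hp0 h1
  rw [h4]
  exact homogeneousComponent_isHomogeneous e q

/-- lowest and highest components -/
theorem exists_low (q : MvPolynomial σ K) (hq : q ≠ 0) :
    ∃ a, homogeneousComponent a q ≠ 0 ∧ ∀ b < a, homogeneousComponent b q = 0 := by
  classical
  have h : ∃ a, homogeneousComponent a q ≠ 0 := by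
    by_contra hcon
    push Not at hcon
    apply hq
    rw [← sum_homogeneousComponent q]
    exact Finset.sum_eq_zero fun i _ => hcon i
  refine ⟨Nat.find h, Nat.find_spec h, fun b hb => ?_⟩
  by_contra hb'
  exact Nat.find_min h hb hb'

theorem exists_high (q : MvPolynomial σ K) (hq : q ≠ 0) :
    ∃ a, homogeneousComponent a q ≠ 0 ∧ ∀ b, a < b → homogeneousComponent b q = 0 := by
  classical
  refine ⟨q.totalDegree, ?_, fun b hb => homogeneousComponent_eq_zero b q hb⟩
  intro h0
  obtain ⟨d, hd, hd'⟩ := (Finset.exists_mem_eq_sup q.support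
    (by simpa [Finset.nonempty_iff_ne_empty] using hq) (fun s => s.sum fun _ e => e))
  have h1 : coeff d (homogeneousComponent q.totalDegree q) = coeff d q := by
    rw [coeff_homogeneousComponent, if_pos]
    rw [totalDegree, hd']
    rfl
  rw [h0, coeff_zero] at h1
  exact (mem_support_iff.1 hd) h1.symm

/-- product of lowest components -/
theorem comp_mul_low (p q : MvPolynomial σ K) (a b : ℕ)
    (hp : ∀ i < a, homogeneousComponent i p = 0) (hq : ∀ i < b, homogeneousComponent i q = 0) :
    homogeneousComponent (a + b) (p * q) = homogeneousComponent a p * homogeneousComponent b q := by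
  classical
  conv_lhs => rw [← sum_homogeneousComponent p, ← sum_homogeneousComponent q, Finset.sum_mul_sum,
    map_sum]
  simp only [map_sum]
  have h3 : ∀ i j : ℕ, homogeneousComponent (a + b)
      (homogeneousComponent i p * homogeneousComponent j q) =
      if i = a ∧ j = b then homogeneousComponent a p * homogeneousComponent b q else 0 := by
    intro i j
    rw [homogeneousComponent_of_mem (m := a + b) (n := i + j)
      ((mem_homogeneousSubmodule _ _).mpr
        ((homogeneousComponent_isHomogeneous i p).mul (homogeneousComponent_isHomogeneous j q)))]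
    by_cases h : i = a ∧ j = b
    · rw [if_pos h, h.1, h.2, if_pos rfl]
    · rw [if_neg h]
      split_ifs with h2
      · rcases Nat.lt_trichotomy i a with h3 | h3 | h3
        · rw [hp i h3, zero_mul]
        · exact absurd ⟨h3, by omega⟩ h
        · rw [hq j (by omega), mul_zero]
      · rfl
  simp only [h3]
  by_cases hA : homogeneousComponent a p = 0
  · simp [hA]
  by_cases hB : homogeneousComponent b q = 0
  · simp [hB]
  have ha : a ∈ Finset.range (p.totalDegree + 1) := by
    rw [Finset.mem_range]
    by_contra h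
    exact hA (homogeneousComponent_eq_zero _ _ (by omega))
  have hb : b ∈ Finset.range (q.totalDegree + 1) := by
    rw [Finset.mem_range]
    by_contra h
    exact hB (homogeneousComponent_eq_zero _ _ (by omega))
  rw [Finset.sum_eq_single_of_mem a ha, Finset.sum_eq_single_of_mem b hb]
  · simp
  · intro j _ hj
    rw [if_neg (by tauto)]
  · intro i _ hi
    apply Finset.sum_eq_zero
    intro j _
    rw [if_neg (by tauto)]

/-- product of highest components -/
theorem comp_mul_high (p q : MvPolynomial σ K) (a b : ℕ)
    (hp : ∀ i, a < i → homogeneousComponent i p = 0)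
    (hq : ∀ i, b < i → homogeneousComponent i q = 0) :
    homogeneousComponent (a + b) (p * q) = homogeneousComponent a p * homogeneousComponent b q := by
  classical
  conv_lhs => rw [← sum_homogeneousComponent p, ← sum_homogeneousComponent q, Finset.sum_mul_sum,
    map_sum]
  simp only [map_sum]
  have h3 : ∀ i j : ℕ, homogeneousComponent (a + b)
      (homogeneousComponent i p * homogeneousComponent j q) =
      if i = a ∧ j = b then homogeneousComponent a p * homogeneousComponent b q else 0 := by
    intro i j
    rw [homogeneousComponent_of_mem (m := a + b) (n := i + j)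
      ((mem_homogeneousSubmodule _ _).mpr
        ((homogeneousComponent_isHomogeneous i p).mul (homogeneousComponent_isHomogeneous j q)))]
    by_cases h : i = a ∧ j = b
    · rw [if_pos h, h.1, h.2, if_pos rfl]
    · rw [if_neg h]
      split_ifs with h2
      · rcases Nat.lt_trichotomy i a with h3 | h3 | h3
        · rw [hq j (by omega), mul_zero]
        · exact absurd ⟨h3, by omega⟩ h
        · rw [hp i h3, zero_mul]
      · rfl
  simp only [h3]
  by_cases hA : homogeneousComponent a p = 0
  · simp [hA]
  by_cases hB : homogeneousComponent b q = 0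
  · simp [hB]
  have ha : a ∈ Finset.range (p.totalDegree + 1) := by
    rw [Finset.mem_range]
    by_contra h
    exact hA (homogeneousComponent_eq_zero _ _ (by omega))
  have hb : b ∈ Finset.range (q.totalDegree + 1) := by
    rw [Finset.mem_range]
    by_contra h
    exact hB (homogeneousComponent_eq_zero _ _ (by omega))
  rw [Finset.sum_eq_single_of_mem a ha, Finset.sum_eq_single_of_mem b hb]
  · simp
  · intro j _ hj
    rw [if_neg (by tauto)]
  · intro i _ hi
    apply Finset.sum_eq_zero
    intro j _
    rw [if_neg (by tauto)]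

/-- a factor of a nonzero form is a form -/
theorem isHomogeneous_of_dvd {p f : MvPolynomial σ K} {n : ℕ} (hf : f.IsHomogeneous n)
    (hf0 : f ≠ 0) (h : p ∣ f) : ∃ k, p.IsHomogeneous k := by
  classical
  obtain ⟨q, rfl⟩ := h
  have hp0 : p ≠ 0 := left_ne_zero_of_mul hf0
  have hq0 : q ≠ 0 := right_ne_zero_of_mul hf0
  obtain ⟨a, ha, ha'⟩ := exists_low p hp0
  obtain ⟨b, hb, hb'⟩ := exists_low q hq0
  obtain ⟨c, hc, hc'⟩ := exists_high p hp0
  obtain ⟨d, hd, hd'⟩ := exists_high q hq0
  have h1 := comp_mul_low p q a b ha' hb'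
  have h2 := comp_mul_high p q c d hc' hd'
  have h3 : a + b = n := by
    by_contra hne
    rw [homogeneousComponent_of_mem ((mem_homogeneousSubmodule _ _).mpr hf), if_neg hne] at h1
    exact mul_ne_zero ha hb h1.symm
  have h4 : c + d = n := by
    by_contra hne
    rw [homogeneousComponent_of_mem ((mem_homogeneousSubmodule _ _).mpr hf), if_neg hne] at h2
    exact mul_ne_zero hc hd h2.symm
  have h5 : a ≤ c := by
    by_contra hlt
    exact hc (ha' c (by omega))
  have h6 : b ≤ d := by
    by_contra hlt
    exact hd (hb' d (by omega))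
  have h7 : a = c := by omega
  refine ⟨a, ?_⟩
  have h8 : p = homogeneousComponent a p := by
    conv_lhs => rw [← sum_homogeneousComponent p]
    rw [Finset.sum_eq_single a]
    · intro i _ hi
      rcases Nat.lt_or_gt_of_ne hi with h | h
      · exact ha' i h
      · exact hc' i (by omega)
    · intro h
      apply homogeneousComponent_eq_zero
      rw [Finset.mem_range] at h
      omega
  rw [h8]
  exact homogeneousComponent_isHomogeneous a p

section chain

variable (Φ : MvPolynomial σ K →ₐ[K] MvPolynomial σ K)

/-- one step -/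
theorem exists_next {g A : MvPolynomial σ K} (hg : Irreducible g)
    (hA : A ≠ 0) (h : g ∣ Φ A) : ∃ g', Irreducible g' ∧ g' ∣ A ∧ g ∣ Φ g' := by
  obtain ⟨f, hf, u, hu⟩ := UniqueFactorizationMonoid.exists_prime_factors A hA
  have h3 : g ∣ Φ (f.prod * ↑u) := by rw [hu]; exact h
  rw [map_mul] at h3
  have hu' : IsUnit (Φ (↑u : MvPolynomial σ K)) := u.isUnit.map _
  have h4 := (hu'.dvd_mul_right).1 h3
  rw [map_multiset_prod] at h4
  obtain ⟨g', hg', hgd⟩ := hg.prime.exists_mem_multiset_map_dvd h4
  exact ⟨g', (hf g' hg').irreducible, (Multiset.dvd_prod hg').trans ⟨↑u, hu.symm⟩, hgd⟩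

/-- a periodic irreducible form gives a periodic chain of irreducible forms -/
theorem exists_chain (hΦ : Function.Injective Φ)
    (hhom : ∀ h : MvPolynomial σ K, (∃ n, h.IsHomogeneous n) → ∃ n, (Φ h).IsHomogeneous n)
    {g : MvPolynomial σ K} (hg : Irreducible g) (hgh : ∃ n, g.IsHomogeneous n)
    (k : ℕ) (hk : 0 < k) (h : g ∣ (Φ^[k]) g) :
    ∃ H : ℕ → MvPolynomial σ K, H 0 = g ∧ (∀ i, H (i + k) = H i) ∧
      (∀ i, ∃ n, (H i).IsHomogeneous n) ∧ (∀ i, Irreducible (H i)) ∧
      (∀ i, H i ∣ Φ (H (i + 1))) := by
  classical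
  have hne : ∀ j : ℕ, (Φ^[j]) g ≠ 0 := by
    intro j
    induction j with
    | zero => exact hg.ne_zero
    | succ j ih =>
      rw [Function.iterate_succ_apply']
      intro h0
      exact ih (hΦ (by rw [h0, map_zero]))
  have hhj : ∀ j : ℕ, ∃ n, ((Φ^[j]) g).IsHomogeneous n := by
    intro j
    induction j with
    | zero => exact hgh
    | succ j ih =>
      rw [Function.iterate_succ_apply']
      exact hhom _ ih
  -- step: from a factor of Φ^[j+1] g to a factor of Φ^[j] g
  have step : ∀ (j : ℕ) (a : MvPolynomial σ K), ∃ b, (Irreducible a ∧ a ∣ (Φ^[j + 1]) g) →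
      (Irreducible b ∧ b ∣ (Φ^[j]) g ∧ a ∣ Φ b) := by
    intro j a
    by_cases ha : Irreducible a ∧ a ∣ (Φ^[j + 1]) g
    · obtain ⟨ha1, ha2⟩ := ha
      rw [Function.iterate_succ_apply'] at ha2
      obtain ⟨b, hb1, hb2, hb3⟩ := exists_next Φ ha1 (hne j) ha2
      exact ⟨b, fun _ => ⟨hb1, hb2, hb3⟩⟩
    · exact ⟨0, fun h => absurd h ha⟩
  choose N hN using step
  -- the chain: c i is a factor of Φ^[k - i] g
  let c : ℕ → MvPolynomial σ K := fun i => Nat.rec g (fun i a => N (k - i - 1) a) i
  have hc0 : c 0 = g := rfl
  have hcs : ∀ i, c (i + 1) = N (k - i - 1) (c i) := fun i => rfl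
  have hc : ∀ i, i < k → Irreducible (c i) ∧ c i ∣ (Φ^[k - i]) g := by
    intro i
    induction i with
    | zero => intro _; exact ⟨hg, h⟩
    | succ i ih =>
      intro hi
      obtain ⟨h1, h2⟩ := ih (by omega)
      have h3 : k - i = (k - i - 1) + 1 := by omega
      rw [h3] at h2
      obtain ⟨h4, h5, h6⟩ := hN (k - i - 1) (c i) ⟨h1, h2⟩
      rw [hcs]
      exact ⟨h4, by rwa [show k - (i + 1) = k - i - 1 by omega]⟩
  have hcd : ∀ i, i + 1 < k → c i ∣ Φ (c (i + 1)) := by
    intro i hi
    obtain ⟨h1, h2⟩ := hc i (by omega)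
    have h3 : k - i = (k - i - 1) + 1 := by omega
    rw [h3] at h2
    obtain ⟨h4, h5, h6⟩ := hN (k - i - 1) (c i) ⟨h1, h2⟩
    rw [hcs]; exact h6
  refine ⟨fun i => c (i % k), ?_, ?_, ?_, ?_, ?_⟩
  · simp [hc0]
  · intro i; simp
  · intro i
    obtain ⟨_, h2⟩ := hc (i % k) (Nat.mod_lt _ hk)
    obtain ⟨n, hn⟩ := hhj (k - i % k)
    exact isHomogeneous_of_dvd hn (hne _) h2
  · intro i
    exact (hc (i % k) (Nat.mod_lt _ hk)).1
  · intro i
    show c (i % k) ∣ Φ (c ((i + 1) % k))
    have hlt := Nat.mod_lt i hk
    rcases Nat.lt_or_ge (i % k + 1) k with h1 | h1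
    · have h2 : (i + 1) % k = i % k + 1 := by
        rw [Nat.add_mod, Nat.mod_eq_of_lt (a := 1) (by omega)]
        exact Nat.mod_eq_of_lt h1
      rw [h2]
      exact hcd _ h1
    · have h2 : (i + 1) % k = 0 := by
        have : i % k = k - 1 := by omega
        rw [← Nat.mod_add_div i k, this]
        have h3 : k - 1 + k * (i / k) + 1 = k * (i / k + 1) := by
          rw [Nat.mul_add, Nat.mul_one]; omega
        rw [h3]
        exact Nat.mul_mod_right _ _
      rw [h2, hc0]
      obtain ⟨_, h4⟩ := hc (i % k) hlt
      have h5 : k - i % k = 1 := by omega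
      rw [h5] at h4
      exact h4

end chain

end Pool.DynLehmerChain
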