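import Mathlib
import Pool.Agent.Lib.MP_2194ec_nt.PlA

set_option autoImplicit false

/-!
# FAMILY: (PSI), generation of `R[X]` over `R[F]`, and (UNI)
-/

namespace Pool.DynLehmerFam

open MvPolynomial Module Pool.DynLehmer

section hom

variable {R : Type} [CommRing R] {σ : Type}

/-- substitution of forms -/
theorem bind_hom {F : σ → MvPolynomial σ R} {q n : ℕ} (hF : ∀ i, (F i).IsHomogeneous q)
    {G : MvPolynomial σ R} (hG : G.IsHomogeneous n) : (bind₁ F G).IsHomogeneous (q * n) := by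
  have h := hG.aeval (S := R) F hF
  rwa [aeval_eq_bind₁] at h

/-- members of an ideal generated by forms: homogeneous coefficients -/
theorem exists_hom_coeffs {F : Fin 3 → MvPolynomial σ R} {q n : ℕ}
    (hF : ∀ i, (F i).IsHomogeneous q) (hqn : q ≤ n) {G : MvPolynomial σ R} (hG : G.IsHomogeneous n)
    (h : G ∈ Ideal.span (Set.range F)) :
    ∃ c : Fin 3 → MvPolynomial σ R, (∀ i, (c i).IsHomogeneous (n - q)) ∧ G = ∑ i, F i * c i := by
  classical
  rw [Ideal.mem_span_range_iff_exists_fun] at h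
  obtain ⟨c, hc⟩ := h
  refine ⟨fun i => homogeneousComponent (n - q) (c i), fun i =>
    homogeneousComponent_isHomogeneous _ _, ?_⟩
  have h1 : homogeneousComponent n G = G := homogeneousComponent_eq_self hG
  rw [← h1, ← hc, map_sum]
  refine Finset.sum_congr rfl fun i _ => ?_
  -- component of `c i * F i`
  conv_lhs => rw [← sum_homogeneousComponent (c i), Finset.sum_mul, map_sum]
  have h3 : ∀ j ∈ Finset.range ((c i).totalDegree + 1),
      homogeneousComponent n (homogeneousComponent j (c i) * F i) =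
        if j = n - q then F i * homogeneousComponent (n - q) (c i) else 0 := by
    intro j _
    rw [homogeneousComponent_of_mem (m := n) (n := j + q)
      ((mem_homogeneousSubmodule _ _).mpr ((homogeneousComponent_isHomogeneous j (c i)).mul (hF i)))]
    by_cases hj : j = n - q
    · rw [if_pos hj, if_pos (by omega), hj, mul_comm]
    · rw [if_neg hj, if_neg (by omega)]
  rw [Finset.sum_congr rfl h3, Finset.sum_ite_eq']
  split_ifs with hmem
  · rfl
  · have h4 : homogeneousComponent (n - q) (c i) = 0 := by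
      apply homogeneousComponent_eq_zero
      rw [Finset.mem_range] at hmem
      omega
    change 0 = F i * homogeneousComponent (n - q) (c i)
    rw [h4, mul_zero]

end hom

section gen

variable {R : Type} [CommRing R]

/-- `x ^ m * Φ (F)` as a linear map in `Φ` -/
noncomputable def tw (F : Fin 3 → MvPolynomial (Fin 3) R) (m : Fin 3 →₀ ℕ) :
    MvPolynomial (Fin 3) R →ₗ[R] MvPolynomial (Fin 3) R :=
  (LinearMap.mulLeft R (monomial m (1 : R))).comp (bind₁ F).toLinearMap

theorem tw_apply (F : Fin 3 → MvPolynomial (Fin 3) R) (m : Fin 3 →₀ ℕ)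
    (Φ : MvPolynomial (Fin 3) R) : tw F m Φ = monomial m 1 * bind₁ F Φ := rfl

/-- the submodule generated by the monomials of degree `< n0` over `R[F]`, degree `n` part -/
noncomputable def Gen (F : Fin 3 → MvPolynomial (Fin 3) R) (q n0 n : ℕ) :
    Submodule R (MvPolynomial (Fin 3) R) :=
  ⨆ (m : Fin 3 →₀ ℕ) (t : ℕ) (_ : m.degree < n0 ∧ m.degree + q * t = n),
    (homogeneousSubmodule (Fin 3) R t).map (tw F m)

theorem mem_Gen {F : Fin 3 → MvPolynomial (Fin 3) R} {q n0 n : ℕ} {m : Fin 3 →₀ ℕ} {t : ℕ}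
    (hm : m.degree < n0) (ht : m.degree + q * t = n) {Φ : MvPolynomial (Fin 3) R}
    (hΦ : Φ.IsHomogeneous t) : monomial m 1 * bind₁ F Φ ∈ Gen F q n0 n := by
  unfold Gen
  refine Submodule.mem_iSup_of_mem m (Submodule.mem_iSup_of_mem t
    (Submodule.mem_iSup_of_mem ⟨hm, ht⟩ ⟨Φ, hΦ, rfl⟩))

theorem Gen_step {F : Fin 3 → MvPolynomial (Fin 3) R} {q n0 n : ℕ} (i : Fin 3)
    {G : MvPolynomial (Fin 3) R} (hG : G ∈ Gen F q n0 n) : F i * G ∈ Gen F q n0 (n + q) := by
  have h : Gen F q n0 n ≤ (Gen F q n0 (n + q)).comap (LinearMap.mulLeft R (F i)) := by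
    unfold Gen
    refine iSup_le fun m => iSup_le fun t => iSup_le fun h => ?_
    rintro _ ⟨Φ, hΦ, rfl⟩
    rw [Submodule.mem_comap]
    change F i * tw F m Φ ∈ Gen F q n0 (n + q)
    have h1 : F i * tw F m Φ = monomial m 1 * bind₁ F (X i * Φ) := by
      rw [tw_apply, map_mul, bind₁_X_right]
      ring
    rw [h1]
    have h2 : (X i * Φ).IsHomogeneous (1 + t) := (isHomogeneous_X R i).mul hΦ
    exact mem_Gen h.1 (by rw [← h.2]; ring) h2
  exact h hG

/-- generation in every degree -/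
theorem gen_all {F : Fin 3 → MvPolynomial (Fin 3) R} {q n0 : ℕ}
    (hF : ∀ i, (F i).IsHomogeneous q) (hq : 0 < q) (hqn : q ≤ n0)
    (hfin : ∀ n, n0 ≤ n → ∀ G : MvPolynomial (Fin 3) R, G.IsHomogeneous n →
      G ∈ Ideal.span (Set.range F)) (n : ℕ) {G : MvPolynomial (Fin 3) R}
    (hG : G.IsHomogeneous n) : G ∈ Gen F q n0 n := by
  classical
  induction n using Nat.strong_induction_on generalizing G with
  | _ n ih =>
    rcases Nat.lt_or_ge n n0 with h | h
    · rw [G.as_sum]
      refine Submodule.sum_mem _ fun m hm => ?_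
      have h1 : m.degree = n := by
        by_contra hne
        exact (mem_support_iff.1 hm) (hG.coeff_eq_zero hne)
      have h2 : monomial m (coeff m G) = monomial m 1 * bind₁ F (C (coeff m G)) := by
        rw [algHom_C, algebraMap_eq, mul_comm, C_mul_monomial, mul_one]
      rw [h2]
      exact mem_Gen (by omega) (t := 0) (by omega) (isHomogeneous_C _ _)
    · obtain ⟨c, hc, rfl⟩ := exists_hom_coeffs hF (hqn.trans h) hG (hfin n h G hG)
      refine Submodule.sum_mem _ fun i _ => ?_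
      have h1 := Gen_step i (ih (n - q) (by omega) (hc i))
      rwa [Nat.sub_add_cancel (hqn.trans h)] at h1

end gen

section psi

variable {k : Type} [Field k]

/-- (PSI) -/
theorem psi {F : Fin 3 → MvPolynomial (Fin 3) k} {q e d : ℕ} (hF : ∀ i, (F i).IsHomogeneous q)
    {g τ : MvPolynomial (Fin 3) k} (hg : g.IsHomogeneous e) (hg0 : g ≠ 0)
    (hτ : τ.IsHomogeneous d) (hd : 0 < d) (hτ0 : τ ≠ 0) (hτF : bind₁ F τ ≠ 0)
    (hcop : IsRelPrime g (bind₁ F τ)) (hq : 0 < q) :
    ∃ Ψ : MvPolynomial (Fin 3) k, ¬ τ ∣ Ψ ∧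
      ∃ u v, bind₁ F Ψ = g * u + bind₁ F τ * v := by
  classical
  set h := bind₁ F τ with hh
  have hhh : h.IsHomogeneous (q * d) := bind_hom hF hτ
  set I : Ideal (MvPolynomial (Fin 3) k) := Ideal.span {g, h} with hI
  set φ : MvPolynomial (Fin 3) k →ₗ[k] (MvPolynomial (Fin 3) k ⧸ I) :=
    (Ideal.Quotient.mkₐ k I).toLinearMap with hφ
  have hφ0 : ∀ x, φ x = 0 ↔ x ∈ I := by
    intro x
    exact Ideal.Quotient.eq_zero_iff_mem
  have hφg : ∀ u, φ (g * u) = 0 := fun u =>
    (hφ0 _).2 (I.mul_mem_right u (Ideal.subset_span (by simp)))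
  have hφh : ∀ u, φ (h * u) = 0 := fun u =>
    (hφ0 _).2 (I.mul_mem_right u (Ideal.subset_span (by simp)))
  have hrel : ∀ u v : MvPolynomial (Fin 3) k, g * u = h * v → h ∣ u := by
    intro u v huv
    have h1 : h ∣ g * u := ⟨v, huv⟩
    exact (hcop.symm).dvd_of_dvd_mul_left h1
  -- the degree
  set t := e * (q * d) + e + q * d + d + 1 with ht
  have hqt : t ≤ q * t := Nat.le_mul_of_pos_left t hq
  have hbound := bezout_dim hg hhh hg0 hτF hrel (t := q * t) (by omega) φ hφg hφh
  set V := homogeneousSubmodule (Fin 3) k t with hV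
  set Ξ : MvPolynomial (Fin 3) k →ₗ[k] (MvPolynomial (Fin 3) k ⧸ I) :=
    φ.comp (bind₁ F).toLinearMap with hΞ
  by_contra hcon
  push Not at hcon
  -- the kernel is the multiples of `τ`
  have hker : V ⊓ LinearMap.ker Ξ ≤ (homogeneousSubmodule (Fin 3) k (t - d)).map (mulL τ) := by
    rintro Ψ ⟨hΨ1, hΨ2⟩
    by_cases hΨ0 : Ψ = 0
    · rw [hΨ0]; exact Submodule.zero_mem _
    have h1 : bind₁ F Ψ ∈ I := (hφ0 _).1 hΨ2
    rw [hI, Ideal.mem_span_pair] at h1
    obtain ⟨u, v, huv⟩ := h1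
    have h2 : τ ∣ Ψ := by
      by_contra h3
      exact hcon Ψ h3 u v (by rw [← huv]; ring)
    obtain ⟨r, rfl⟩ := h2
    have h3 := hom_quot ((mem_homogeneousSubmodule _ _).1 hΨ1) hτ hΨ0
    exact ⟨r, h3.2, rfl⟩
  have hrn := LinearMap.finrank_range_add_finrank_ker (Ξ.domRestrict V)
  have hr1 : LinearMap.range (Ξ.domRestrict V) = V.map Ξ := by
    rw [LinearMap.range_domRestrict]
  have hr2 : finrank k (LinearMap.ker (Ξ.domRestrict V)) =
      finrank k (V ⊓ LinearMap.ker Ξ : Submodule k (MvPolynomial (Fin 3) k)) := by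
    rw [LinearMap.ker_domRestrict, ← Submodule.map_comap_subtype, Submodule.finrank_map_subtype_eq]
  have hfd : FiniteDimensional k ((homogeneousSubmodule (Fin 3) k (t - d)).map (mulL τ)) :=
    inferInstance
  have hk1 := Submodule.finrank_mono hker
  rw [finrank_map_mul hτ0, finrank_hom] at hk1
  have hk2 : finrank k (V.map Ξ) ≤ finrank k ((homogeneousSubmodule (Fin 3) k (q * t)).map φ) := by
    have h1 : V.map Ξ ≤ (homogeneousSubmodule (Fin 3) k (q * t)).map φ := by
      rintro _ ⟨Ψ, hΨ, rfl⟩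
      exact ⟨bind₁ F Ψ, bind_hom hF hΨ, rfl⟩
    exact Submodule.finrank_mono h1
  rw [hr1, hr2, hV, finrank_hom, ← hV] at hrn
  -- numbers
  have hn1 : (t + 2).choose 2 ≤ e * (q * d) + (t - d + 2).choose 2 := by omega
  have h5 := two_choose t
  have h6 := two_choose (t - d)
  obtain ⟨r, hr⟩ : ∃ r, t = d + r := ⟨t - d, by omega⟩
  have h7 : t - d = r := by omega
  rw [h7] at h6 hn1
  have h8 : r = e * (q * d) + e + q * d + 1 := by omega
  rw [hr] at h5 hn1
  nlinarith

end psi

section uni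

variable {k : Type} [Field k]

/-- (UNI) -/
theorem uni {F : Fin 3 → MvPolynomial (Fin 3) k} {q n0 e a b : ℕ}
    (hF : ∀ i, (F i).IsHomogeneous q) (hq : 0 < q) (hqn : q ≤ n0)
    (hfin : ∀ n, n0 ≤ n → ∀ G : MvPolynomial (Fin 3) k, G.IsHomogeneous n →
      G ∈ Ideal.span (Set.range F)) {g Φ Φ' : MvPolynomial (Fin 3) k} (hg : g.IsHomogeneous e)
    (he : 0 < e) (hg0 : g ≠ 0) (hΦ : Φ.IsHomogeneous a) (hΦ0 : Φ ≠ 0) (hΦ' : Φ'.IsHomogeneous b)
    (hΦ'0 : Φ' ≠ 0) (h1 : g ∣ bind₁ F Φ) (h2 : g ∣ bind₁ F Φ') : ¬ IsRelPrime Φ Φ' := by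
  classical
  intro hcop
  set I : Ideal (MvPolynomial (Fin 3) k) := Ideal.span {g} with hI
  set φ : MvPolynomial (Fin 3) k →ₗ[k] (MvPolynomial (Fin 3) k ⧸ I) :=
    (Ideal.Quotient.mkₐ k I).toLinearMap with hφ
  have hφ0 : ∀ x, φ x = 0 ↔ g ∣ x := by
    intro x
    rw [← Ideal.mem_span_singleton]
    exact Ideal.Quotient.eq_zero_iff_mem
  have hrel : ∀ u v : MvPolynomial (Fin 3) k, Φ * u = Φ' * v → Φ' ∣ u := by
    intro u v huv
    exact (hcop.symm).dvd_of_dvd_mul_left ⟨v, huv⟩
  -- the exponents of degree `< n0`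
  have hfinE : {m : Fin 3 →₀ ℕ | m.degree ≤ n0}.Finite := Finsupp.finite_of_degree_le n0
  set E := hfinE.toFinset with hE
  set M := E.card with hM
  set n := n0 + q * (a + b) + e + M * (a * b) + 1 with hn
  set V := homogeneousSubmodule (Fin 3) k n with hV
  set W : (Fin 3 →₀ ℕ) → Submodule k (MvPolynomial (Fin 3) k ⧸ I) := fun m =>
    (homogeneousSubmodule (Fin 3) k ((n - m.degree) / q)).map (φ.comp (tw F m)) with hW
  have hVle : V.map φ ≤ ⨆ m ∈ E, W m := by
    rw [Submodule.map_le_iff_le_comap]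
    intro G hG
    have hG1 := gen_all hF hq hqn hfin n ((mem_homogeneousSubmodule _ _).1 hG)
    have h3 : Gen F q n0 n ≤ (⨆ m ∈ E, W m).comap φ := by
      unfold Gen
      refine iSup_le fun m => iSup_le fun t => iSup_le fun h => ?_
      rintro _ ⟨Φ1, hΦ1, rfl⟩
      rw [Submodule.mem_comap]
      have hmE : m ∈ E := by
        rw [hE, Set.Finite.mem_toFinset]
        exact h.1.le
      refine Submodule.mem_iSup_of_mem m (Submodule.mem_iSup_of_mem hmE ⟨Φ1, ?_, rfl⟩)
      have h4 : (n - m.degree) / q = t := by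
        rw [← h.2, Nat.add_sub_cancel_left, Nat.mul_div_cancel_left _ hq]
      rw [h4]
      exact hΦ1
    exact h3 hG1
  have hWdim : ∀ m ∈ E, finrank k (W m) ≤ a * b := by
    intro m hm
    rw [hE, Set.Finite.mem_toFinset] at hm
    refine bezout_dim hΦ hΦ' hΦ0 hΦ'0 hrel ?_ (φ.comp (tw F m)) ?_ ?_
    · have hm' : m.degree ≤ n0 := hm
      rw [Nat.le_div_iff_mul_le hq]
      have : (a + b) * q = q * (a + b) := mul_comm _ _
      omega
    · intro u
      change φ (tw F m (Φ * u)) = 0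
      rw [hφ0, tw_apply, map_mul]
      exact Dvd.dvd.mul_left (h1.mul_right _) _
    · intro u
      change φ (tw F m (Φ' * u)) = 0
      rw [hφ0, tw_apply, map_mul]
      exact Dvd.dvd.mul_left (h2.mul_right _) _
  have hsup0 : FiniteDimensional k (⨆ m ∈ E, W m : Submodule k (MvPolynomial (Fin 3) k ⧸ I)) ∧
      finrank k (⨆ m ∈ E, W m : Submodule k (MvPolynomial (Fin 3) k ⧸ I)) ≤
      M * (a * b) := by
    have h3 : ∀ S : Finset (Fin 3 →₀ ℕ), S ⊆ E →
        FiniteDimensional k (⨆ m ∈ S, W m : Submodule k (MvPolynomial (Fin 3) k ⧸ I)) ∧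
        finrank k (⨆ m ∈ S, W m : Submodule k (MvPolynomial (Fin 3) k ⧸ I)) ≤
          S.card * (a * b) := by
      intro S
      induction S using Finset.induction_on with
      | empty =>
        intro _
        have h4 : (⨆ m ∈ (∅ : Finset (Fin 3 →₀ ℕ)), W m :
            Submodule k (MvPolynomial (Fin 3) k ⧸ I)) = ⊥ := by simp
        rw [h4]
        exact ⟨inferInstance, by simp⟩
      | insert m S hm ih =>
        intro hS
        obtain ⟨i1, i2⟩ := ih fun x hx => hS (Finset.mem_insert_of_mem hx)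
        have hfW : FiniteDimensional k (W m) := inferInstance
        rw [Finset.iSup_insert]
        refine ⟨inferInstance, ?_⟩
        refine (Submodule.finrank_add_le_finrank_add_finrank _ _).trans ?_
        rw [Finset.card_insert_of_notMem hm, Nat.add_mul, one_mul, add_comm]
        exact Nat.add_le_add i2 (hWdim m (hS (Finset.mem_insert_self m S)))
    exact h3 E (Finset.Subset.refl _)
  obtain ⟨hfdsup, hsup⟩ := hsup0
  have hup : finrank k (V.map φ) ≤ M * (a * b) := (Submodule.finrank_mono hVle).trans hsup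
  -- lower bound
  have hker : V ⊓ LinearMap.ker φ ≤ (homogeneousSubmodule (Fin 3) k (n - e)).map (mulL g) := by
    rintro Ψ ⟨hΨ1, hΨ2⟩
    by_cases hΨ0 : Ψ = 0
    · rw [hΨ0]; exact Submodule.zero_mem _
    obtain ⟨r, rfl⟩ := (hφ0 _).1 hΨ2
    have h3 := hom_quot ((mem_homogeneousSubmodule _ _).1 hΨ1) hg hΨ0
    exact ⟨r, h3.2, rfl⟩
  have hrn := LinearMap.finrank_range_add_finrank_ker (φ.domRestrict V)
  have hr1 : LinearMap.range (φ.domRestrict V) = V.map φ := by
    rw [LinearMap.range_domRestrict]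
  have hr2 : finrank k (LinearMap.ker (φ.domRestrict V)) =
      finrank k (V ⊓ LinearMap.ker φ : Submodule k (MvPolynomial (Fin 3) k)) := by
    rw [LinearMap.ker_domRestrict, ← Submodule.map_comap_subtype, Submodule.finrank_map_subtype_eq]
  have hfd : FiniteDimensional k ((homogeneousSubmodule (Fin 3) k (n - e)).map (mulL g)) :=
    inferInstance
  have hk1 := Submodule.finrank_mono hker
  rw [finrank_map_mul hg0, finrank_hom] at hk1
  rw [hr1, hr2, hV, finrank_hom, ← hV] at hrn
  have hn1 : (n + 2).choose 2 ≤ M * (a * b) + (n - e + 2).choose 2 := by omega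
  have h5 := two_choose n
  have h6 := two_choose (n - e)
  obtain ⟨r, hr⟩ : ∃ r, n = e + r := ⟨n - e, by omega⟩
  have h7 : n - e = r := by omega
  rw [h7] at h6 hn1
  have h8 : M * (a * b) < r := by omega
  rw [hr] at h5 hn1
  nlinarith

end uni

end Pool.DynLehmerFam
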