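import Mathlib
import Pool.Agent.Lib.MP_2194ec_nt.H9.FamA

set_option autoImplicit false

/-!
# FAMILY: the key theorem (PSI) + (NAK) + (UNI) over a valuation ring
-/

namespace Pool.DynLehmerFam

open MvPolynomial Module Pool.DynLehmer

section comp

variable {R : Type} [CommRing R] {σ : Type}

/-- homogeneous components of a multiple of a form -/
theorem comp_mul {F : MvPolynomial σ R} {q : ℕ} (hF : F.IsHomogeneous q)
    (c : MvPolynomial σ R) (n : ℕ) :
    homogeneousComponent n (F * c) =
      if q ≤ n then F * homogeneousComponent (n - q) c else 0 := by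
  classical
  conv_lhs => rw [← sum_homogeneousComponent c, Finset.mul_sum, map_sum]
  have h3 : ∀ j ∈ Finset.range (c.totalDegree + 1),
      homogeneousComponent n (F * homogeneousComponent j c) =
        if j = n - q then (if q ≤ n then F * homogeneousComponent (n - q) c else 0) else 0 := by
    intro j _
    rw [homogeneousComponent_of_mem (m := n) (n := q + j)
      ((mem_homogeneousSubmodule _ _).mpr (hF.mul (homogeneousComponent_isHomogeneous j c)))]
    by_cases hj : j = n - q
    · by_cases hq : q ≤ n
      · rw [if_pos hj, if_pos hq, if_pos (by omega), hj]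
      · rw [if_pos hj, if_neg hq, if_neg (by omega)]
    · rw [if_neg hj, if_neg (by omega)]
  rw [Finset.sum_congr rfl h3, Finset.sum_ite_eq']
  split_ifs with hmem h
  · rfl
  · rfl
  · have h4 : homogeneousComponent (n - q) c = 0 := by
      apply homogeneousComponent_eq_zero
      rw [Finset.mem_range] at hmem
      omega
    rw [h4, mul_zero]
  · rfl

theorem dvd_comp {F G : MvPolynomial σ R} {q : ℕ} (hF : F.IsHomogeneous q) (h : F ∣ G) (n : ℕ) :
    F ∣ homogeneousComponent n G := by
  obtain ⟨c, rfl⟩ := h
  rw [comp_mul hF]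
  split_ifs
  · exact dvd_mul_right _ _
  · exact dvd_zero _

theorem comp_bind {F : σ → MvPolynomial σ R} {q : ℕ} (hF : ∀ i, (F i).IsHomogeneous q)
    (hq : 0 < q) (s : MvPolynomial σ R) (j : ℕ) :
    homogeneousComponent (q * j) (bind₁ F s) = bind₁ F (homogeneousComponent j s) := by
  classical
  conv_lhs => rw [← sum_homogeneousComponent s, map_sum, map_sum]
  have h3 : ∀ i ∈ Finset.range (s.totalDegree + 1),
      homogeneousComponent (q * j) (bind₁ F (homogeneousComponent i s)) =
        if i = j then bind₁ F (homogeneousComponent j s) else 0 := by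
    intro i _
    rw [homogeneousComponent_of_mem (m := q * j) (n := q * i)
      ((mem_homogeneousSubmodule _ _).mpr (bind_hom hF (homogeneousComponent_isHomogeneous i s)))]
    by_cases hj : i = j
    · rw [if_pos hj, if_pos (by rw [hj]), hj]
    · rw [if_neg hj, if_neg]
      intro h
      exact hj (Nat.eq_of_mul_eq_mul_left hq h).symm
  rw [Finset.sum_congr rfl h3, Finset.sum_ite_eq']
  split_ifs with hmem
  · rfl
  · have h4 : homogeneousComponent j s = 0 := by
      apply homogeneousComponent_eq_zero
      rw [Finset.mem_range] at hmem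
      omega
    rw [h4, map_zero]

end comp

section gen2

variable {R : Type} [CommRing R]

/-- every polynomial is a combination of the monomials of degree `< n0` over `R[F]` -/
theorem gen_fun {F : Fin 3 → MvPolynomial (Fin 3) R} {q n0 : ℕ}
    (hF : ∀ i, (F i).IsHomogeneous q) (hq : 0 < q) (hqn : q ≤ n0)
    (hfin : ∀ n, n0 ≤ n → ∀ G : MvPolynomial (Fin 3) R, G.IsHomogeneous n →
      G ∈ Ideal.span (Set.range F)) {E : Finset (Fin 3 →₀ ℕ)}
    (hE : ∀ m : Fin 3 →₀ ℕ, m.degree < n0 → m ∈ E) (G : MvPolynomial (Fin 3) R) :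
    ∃ P : E → MvPolynomial (Fin 3) R, G = ∑ m : E, bind₁ F (P m) * monomial (m : Fin 3 →₀ ℕ) 1 := by
  classical
  -- the submodule of all such elements
  set L : (E → MvPolynomial (Fin 3) R) →ₗ[R] MvPolynomial (Fin 3) R :=
    ∑ m : E, (tw F (m : Fin 3 →₀ ℕ)).comp (LinearMap.proj m) with hL
  have hLa : ∀ P, L P = ∑ m : E, bind₁ F (P m) * monomial (m : Fin 3 →₀ ℕ) 1 := by
    intro P
    rw [hL, LinearMap.sum_apply]
    refine Finset.sum_congr rfl fun m _ => ?_
    rw [LinearMap.comp_apply, LinearMap.proj_apply, tw_apply, mul_comm]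
  have h1 : ∀ n, Gen F q n0 n ≤ LinearMap.range L := by
    intro n
    unfold Gen
    refine iSup_le fun m => iSup_le fun t => iSup_le fun h => ?_
    rintro _ ⟨Φ, hΦ, rfl⟩
    refine ⟨Pi.single ⟨m, hE m h.1⟩ Φ, ?_⟩
    rw [hL, LinearMap.sum_apply, Finset.sum_eq_single ⟨m, hE m h.1⟩]
    · rw [LinearMap.comp_apply, LinearMap.proj_apply, Pi.single_eq_same]
    · intro b _ hb
      rw [LinearMap.comp_apply, LinearMap.proj_apply, Pi.single_eq_of_ne hb, map_zero]
    · intro h
      exact absurd (Finset.mem_univ _) h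
  have h2 : G ∈ LinearMap.range L := by
    rw [← sum_homogeneousComponent G]
    exact Submodule.sum_mem _ fun i _ => h1 i (gen_all hF hq hqn hfin i
      (homogeneousComponent_isHomogeneous i G))
  obtain ⟨P, hP⟩ := h2
  exact ⟨P, by rw [← hP, hLa]⟩

end gen2

end Pool.DynLehmerFam
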