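import Mathlib
import Pool.Agent.Lib.MP_2194ec_nt.H9.FamKey

set_option autoImplicit false
namespace Pool.DynLehmerFam

open MvPolynomial Module Pool.DynLehmer IsLocalRing

section local1

variable {O : Type} [CommRing O] [IsLocalRing O]

/-- reduction -/
noncomputable def red (G : MvPolynomial (Fin 3) O) : MvPolynomial (Fin 3) (ResidueField O) :=
  MvPolynomial.map (residue O) G

theorem red_surj_hom {n : ℕ} {G : MvPolynomial (Fin 3) (ResidueField O)}
    (hG : G.IsHomogeneous n) : ∃ H : MvPolynomial (Fin 3) O, H.IsHomogeneous n ∧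
      MvPolynomial.map (residue O) H = G := by
  obtain ⟨H, hH⟩ := MvPolynomial.map_surjective (residue O) (residue_surjective) G
  refine ⟨homogeneousComponent n H, homogeneousComponent_isHomogeneous n H, ?_⟩
  ext d
  rw [coeff_map, coeff_homogeneousComponent]
  split_ifs with h
  · rw [← hH, coeff_map]
  · rw [map_zero, hG.coeff_eq_zero h]

theorem mem_smul_of_red {n : ℕ} {G : MvPolynomial (Fin 3) O} (hG : G.IsHomogeneous n)
    (h0 : MvPolynomial.map (residue O) G = 0) :
    G ∈ (maximalIdeal O) • (homogeneousSubmodule (Fin 3) O n) := by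
  rw [G.as_sum]
  refine Submodule.sum_mem _ fun m hm => ?_
  have h1 : m.degree = n := by
    by_contra hne
    exact (mem_support_iff.1 hm) (hG.coeff_eq_zero hne)
  have h2 : coeff m G ∈ maximalIdeal O := by
    rw [← residue_eq_zero_iff]
    have := congrArg (coeff m) h0
    rwa [coeff_map, coeff_zero] at this
  have h3 : monomial m (coeff m G) = (coeff m G) • monomial m (1 : O) := by
    rw [smul_monomial, smul_eq_mul, mul_one]
  rw [h3]
  refine Submodule.smul_mem_smul h2 ?_
  rw [mem_homogeneousSubmodule]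
  exact isHomogeneous_monomial _ h1

omit [IsLocalRing O] in
theorem hom_fg (n : ℕ) : (homogeneousSubmodule (Fin 3) O n).FG := by
  have hfinE : {m : Fin 3 →₀ ℕ | m.degree ≤ n}.Finite := Finsupp.finite_of_degree_le n
  classical
  refine ⟨(hfinE.toFinset.filter fun m => m.degree = n).image fun m => monomial m (1 : O), ?_⟩
  apply le_antisymm
  · rw [Submodule.span_le]
    intro x hx
    simp only [Finset.coe_image, Set.mem_image, Finset.coe_filter, Set.mem_ofPred_eq] at hx
    obtain ⟨m, hm, rfl⟩ := hx
    exact (mem_homogeneousSubmodule _ _).2 (isHomogeneous_monomial _ hm.2)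
  · intro G hG
    have hG' := (mem_homogeneousSubmodule _ _).1 hG
    rw [G.as_sum]
    refine Submodule.sum_mem _ fun m hm => ?_
    have h1 : m.degree = n := by
      by_contra hne
      exact (mem_support_iff.1 hm) (hG'.coeff_eq_zero hne)
    have h3 : monomial m (coeff m G) = (coeff m G) • monomial m (1 : O) := by
      rw [smul_monomial, smul_eq_mul, mul_one]
    rw [h3]
    refine Submodule.smul_mem _ _ (Submodule.subset_span ?_)
    simp only [Finset.coe_image, Set.mem_image, Finset.coe_filter, Set.mem_ofPred_eq]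
    exact ⟨m, ⟨by rw [Set.Finite.mem_toFinset]; exact h1.le, h1⟩, rfl⟩

/-- finiteness over `O` from finiteness over the residue field (Nakayama) -/
theorem hfin_lift {F : Fin 3 → MvPolynomial (Fin 3) O} {q n0 : ℕ}
    (hF : ∀ i, (F i).IsHomogeneous q) (hqn : q ≤ n0)
    (hfin : ∀ n, n0 ≤ n → ∀ G : MvPolynomial (Fin 3) (ResidueField O), G.IsHomogeneous n →
      G ∈ Ideal.span (Set.range fun i => MvPolynomial.map (residue O) (F i))) :
    ∀ n, n0 ≤ n → ∀ G : MvPolynomial (Fin 3) O, G.IsHomogeneous n →
      G ∈ Ideal.span (Set.range F) := by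
  intro n hn
  have h1 : homogeneousSubmodule (Fin 3) O n ≤
      (Ideal.span (Set.range F)).restrictScalars O := by
    refine Submodule.le_of_le_smul_of_le_jacobson_bot (hom_fg n)
      (maximalIdeal_le_jacobson _) ?_
    intro G hG
    have hG' := (mem_homogeneousSubmodule _ _).1 hG
    have hr : (MvPolynomial.map (residue O) G).IsHomogeneous n := hG'.map _
    obtain ⟨c, hc, hc1⟩ := exists_hom_coeffs (fun i => (hF i).map (residue O)) (hqn.trans hn) hr
      (hfin n hn _ hr)
    choose c' hc' hc'1 using fun i => red_surj_hom (hc i)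
    have h2 : ∑ i, F i * c' i ∈ (Ideal.span (Set.range F)).restrictScalars O := by
      refine Submodule.sum_mem _ fun i _ => ?_
      exact Ideal.mul_mem_right _ _ (Ideal.subset_span ⟨i, rfl⟩)
    have h3 : (∑ i, F i * c' i).IsHomogeneous n := by
      refine IsHomogeneous.sum _ _ _ fun i _ => ?_
      have := (hF i).mul (hc' i)
      rwa [Nat.add_sub_cancel' (hqn.trans hn)] at this
    have h4 : G - ∑ i, F i * c' i ∈ (maximalIdeal O) • (homogeneousSubmodule (Fin 3) O n) := by
      refine mem_smul_of_red (hG'.sub h3) ?_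
      rw [map_sub, map_sum, hc1, sub_eq_zero]
      refine Finset.sum_congr rfl fun i _ => ?_
      rw [map_mul, hc'1]
    have h5 : G = (∑ i, F i * c' i) + (G - ∑ i, F i * c' i) := by ring
    rw [h5]
    exact Submodule.add_mem_sup h2 h4
  intro G hG
  exact h1 ((mem_homogeneousSubmodule _ _).2 hG)

end local1

section frac

variable {O KK : Type} [CommRing O] [Field KK] [Algebra O KK]

/-- finiteness over the fraction field -/
theorem hfin_frac {F : Fin 3 → MvPolynomial (Fin 3) O} {n0 : ℕ}
    (hfin : ∀ n, n0 ≤ n → ∀ G : MvPolynomial (Fin 3) O, G.IsHomogeneous n →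
      G ∈ Ideal.span (Set.range F)) :
    ∀ n, n0 ≤ n → ∀ G : MvPolynomial (Fin 3) KK, G.IsHomogeneous n →
      G ∈ Ideal.span (Set.range fun i => MvPolynomial.map (algebraMap O KK) (F i)) := by
  intro n hn G hG
  rw [G.as_sum]
  refine Submodule.sum_mem _ fun m hm => ?_
  have h1 : m.degree = n := by
    by_contra hne
    exact (mem_support_iff.1 hm) (hG.coeff_eq_zero hne)
  have h2 := hfin n hn (monomial m 1) (isHomogeneous_monomial _ h1)
  have h3 := Ideal.mem_map_of_mem (MvPolynomial.map (algebraMap O KK)) h2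
  rw [Ideal.map_span, ← Set.range_comp] at h3
  have h4 : monomial m (coeff m G) = C (coeff m G) *
      MvPolynomial.map (algebraMap O KK) (monomial m 1) := by
    rw [map_monomial, map_one, C_mul_monomial, mul_one]
  rw [h4]
  exact Ideal.mul_mem_left _ _ h3

variable [IsDomain O] [ValuationRing O] [IsFractionRing O KK]

/-- scaling a nonzero polynomial over the fraction field -/
theorem scale {r : MvPolynomial (Fin 3) KK} (hr : r ≠ 0) :
    ∃ (a : KK) (r0 : MvPolynomial (Fin 3) O), a ≠ 0 ∧
      r = C a * MvPolynomial.map (algebraMap O KK) r0 ∧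
      MvPolynomial.map (residue O) r0 ≠ 0 := by
  classical
  have hne : r.support.Nonempty := by
    rwa [Finset.nonempty_iff_ne_empty, Ne, MvPolynomial.support_eq_empty]
  obtain ⟨m, hm, hmax⟩ := Finset.exists_max_image r.support
    (fun m => ValuationRing.valuation O KK (coeff m r)) hne
  have ha : coeff m r ≠ 0 := mem_support_iff.1 hm
  have h1 : ∀ m', ∃ b : O, algebraMap O KK b = coeff m' r / coeff m r := by
    intro m'
    rw [← ValuationRing.mem_integer_iff, Valuation.mem_integer_iff, map_div₀]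
    by_cases h : m' ∈ r.support
    · have h2 := hmax m' h
      have h3 : (ValuationRing.valuation O KK (coeff m r)) ≠ 0 := by
        rwa [Valuation.ne_zero_iff]
      exact div_le_one_of_le₀ h2 zero_le
    · rw [notMem_support_iff.1 h, map_zero, zero_div]
      exact zero_le_one
  choose b hb using h1
  refine ⟨coeff m r, ∑ m' ∈ r.support, monomial m' (b m'), ha, ?_, ?_⟩
  · conv_lhs => rw [r.as_sum]
    rw [map_sum, Finset.mul_sum]
    refine Finset.sum_congr rfl fun m' _ => ?_
    rw [map_monomial, hb, C_mul_monomial, mul_div_cancel₀ _ ha]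
  · intro h0
    have h2 := congrArg (coeff m) h0
    rw [coeff_map, coeff_zero, coeff_sum] at h2
    rw [Finset.sum_eq_single m] at h2
    · rw [coeff_monomial, if_pos rfl] at h2
      have h3 : b m = 1 := by
        apply IsFractionRing.injective O KK
        rw [hb, div_self ha, map_one]
      rw [h3, map_one] at h2
      exact one_ne_zero h2
    · intro m' _ hne'
      rw [coeff_monomial, if_neg hne']
    · intro h
      exact absurd hm h

/-- Gauss -/
theorem gauss_dvd {A B : MvPolynomial (Fin 3) O} (hA : MvPolynomial.map (residue O) A ≠ 0)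
    (hB : B ≠ 0)
    (h : MvPolynomial.map (algebraMap O KK) A ∣ MvPolynomial.map (algebraMap O KK) B) : A ∣ B := by
  have hinj : Function.Injective (MvPolynomial.map (σ := Fin 3) (algebraMap O KK)) :=
    MvPolynomial.map_injective _ (IsFractionRing.injective O KK)
  obtain ⟨r, hr⟩ := h
  have hr0 : r ≠ 0 := by
    rintro rfl
    rw [mul_zero] at hr
    exact hB (hinj (by rw [hr, map_zero]))
  obtain ⟨a, r0, ha, hr1, hr2⟩ := scale (O := O) hr0
  rcases ValuationRing.isInteger_or_isInteger O a with ⟨c, hc⟩ | ⟨c, hc⟩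
  · refine ⟨C c * r0, hinj ?_⟩
    rw [hr, hr1, map_mul, map_mul, map_C, hc]
  · -- `c B = A r0`
    have h1 : C c * B = A * r0 := by
      apply hinj
      rw [map_mul, map_mul, map_C, hr, hr1, hc]
      have h2 : C (σ := Fin 3) a⁻¹ * C a = 1 := by
        rw [← C_mul, inv_mul_cancel₀ ha, C_1]
      linear_combination (MvPolynomial.map (algebraMap O KK) A *
        MvPolynomial.map (algebraMap O KK) r0) * h2
    by_cases hu : IsUnit c
    · obtain ⟨u, rfl⟩ := hu
      refine ⟨C (↑u⁻¹ : O) * r0, ?_⟩
      have h3 : C (σ := Fin 3) (↑u⁻¹ : O) * C (↑u : O) = 1 := by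
        rw [← C_mul, Units.inv_mul, C_1]
      linear_combination C (↑u⁻¹ : O) * h1 - B * h3
    · exfalso
      have h2 : residue O c = 0 := by
        rw [residue_eq_zero_iff]
        exact hu
      have h3 := congrArg (MvPolynomial.map (residue O)) h1
      rw [map_mul, map_C, h2, C_0, zero_mul, map_mul] at h3
      exact mul_ne_zero hA hr2 h3.symm

end frac

section nak

variable {O : Type} [CommRing O] [IsLocalRing O]

/-- (NAK): Cayley-Hamilton -/
theorem nak {F : Fin 3 → MvPolynomial (Fin 3) O} {q n0 : ℕ} (hF : ∀ i, (F i).IsHomogeneous q)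
    (hq : 0 < q) (hqn : q ≤ n0)
    (hfin : ∀ n, n0 ≤ n → ∀ G : MvPolynomial (Fin 3) O, G.IsHomogeneous n →
      G ∈ Ideal.span (Set.range F)) {g τ' Ψ' A' B' : MvPolynomial (Fin 3) O}
    {τ : MvPolynomial (Fin 3) (ResidueField O)} (hτ : Prime τ)
    (hτ' : MvPolynomial.map (residue O) τ' = τ) (hΨ : ¬ τ ∣ MvPolynomial.map (residue O) Ψ')
    (h : MvPolynomial.map (residue O) (bind₁ F Ψ' - g * A' - bind₁ F τ' * B') = 0) :
    ∃ s : MvPolynomial (Fin 3) O, g ∣ bind₁ F s ∧ ¬ τ ∣ MvPolynomial.map (residue O) s := by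
  classical
  have hfinE : {m : Fin 3 →₀ ℕ | m.degree ≤ n0}.Finite := Finsupp.finite_of_degree_le n0
  set E := hfinE.toFinset with hE
  have hEmem : ∀ m : Fin 3 →₀ ℕ, m.degree < n0 → m ∈ E := by
    intro m hm
    rw [hE, Set.Finite.mem_toFinset]
    exact hm.le
  have hgen := gen_fun hF hq hqn hfin hEmem
  set μ := bind₁ F Ψ' - g * A' - bind₁ F τ' * B' with hμ
  have hμc : ∀ a, residue O (coeff a μ) = 0 := by
    intro a
    have := congrArg (coeff a) h
    rwa [coeff_map, coeff_zero] at this
  choose P hP using fun (a : Fin 3 →₀ ℕ) (m : E) =>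
    hgen (monomial a 1 * monomial (m : Fin 3 →₀ ℕ) 1)
  choose Q hQ using fun (m : E) => hgen (B' * monomial (m : Fin 3 →₀ ℕ) 1)
  set x : E → MvPolynomial (Fin 3) O := fun m => monomial (m : Fin 3 →₀ ℕ) 1 with hx
  set P1 : E → E → MvPolynomial (Fin 3) O := fun m m' =>
    ∑ a ∈ μ.support, C (coeff a μ) * P a m m' with hP1
  have hP1r : ∀ m m', MvPolynomial.map (residue O) (P1 m m') = 0 := by
    intro m m'
    rw [hP1]
    simp only [map_sum, map_mul, map_C, hμc, C_0, zero_mul, Finset.sum_const_zero]
  have hP1s : ∀ m, μ * x m = ∑ m', bind₁ F (P1 m m') * x m' := by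
    intro m
    conv_lhs => rw [μ.as_sum, Finset.sum_mul]
    have h1 : ∀ a ∈ μ.support, monomial a (coeff a μ) * x m =
        ∑ m', C (coeff a μ) * (bind₁ F (P a m m') * x m') := by
      intro a _
      rw [← Finset.mul_sum]
      have h2 := hP a m
      rw [← h2, ← mul_assoc, C_mul_monomial, mul_one]
    rw [Finset.sum_congr rfl h1, Finset.sum_comm]
    refine Finset.sum_congr rfl fun m' _ => ?_
    rw [hP1]
    simp only [map_sum, map_mul, algHom_C, algebraMap_eq, Finset.sum_mul, mul_assoc]
  set N : Matrix E E (MvPolynomial (Fin 3) O) :=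
    Matrix.of fun m m' => (if m = m' then Ψ' else 0) - P1 m m' - τ' * Q m m' with hN
  set ψ : MvPolynomial (Fin 3) O →+* MvPolynomial (Fin 3) O := (bind₁ F).toRingHom with hψ
  have hψa : ∀ y, ψ y = bind₁ F y := fun y => rfl
  have hNx : ∀ m, ∑ m', ψ (N m m') * x m' = g * (A' * x m) := by
    intro m
    have h1 : ∀ m' ∈ (Finset.univ : Finset E), ψ (N m m') * x m' =
        (if m = m' then bind₁ F Ψ' * x m' else 0) - bind₁ F (P1 m m') * x m' -
          bind₁ F τ' * (bind₁ F (Q m m') * x m') := by
      intro m' _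
      rw [hψa, hN, Matrix.of_apply, map_sub, map_sub, map_mul]
      split_ifs with hh
      · ring
      · rw [map_zero]; ring
    rw [Finset.sum_congr rfl h1, Finset.sum_sub_distrib, Finset.sum_sub_distrib,
      ← Finset.mul_sum, ← hQ m, ← hP1s m, Finset.sum_ite_eq, if_pos (Finset.mem_univ _), hμ, hx]
    ring
  refine ⟨N.det, ?_, ?_⟩
  · have hadj : ((N.map ψ).adjugate * N.map ψ).mulVec x =
        ((N.map ψ).adjugate).mulVec (fun m => g * (A' * x m)) := by
      rw [← Matrix.mulVec_mulVec]
      congr 1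
      funext m
      rw [← hNx m]
      rfl
    rw [Matrix.adjugate_mul, Matrix.smul_mulVec, Matrix.one_mulVec] at hadj
    have hn0 : (0 : Fin 3 →₀ ℕ) ∈ E := hEmem 0 (by
      have : (0 : Fin 3 →₀ ℕ).degree = 0 := by simp
      omega)
    have h2 := congrFun hadj ⟨0, hn0⟩
    have h3 : x ⟨0, hn0⟩ = 1 := by
      exact (C_1 : (C (1 : O) : MvPolynomial (Fin 3) O) = 1)
    rw [Pi.smul_apply, smul_eq_mul, h3, mul_one] at h2
    have h4 : bind₁ F N.det = (N.map ψ).det := by
      rw [← hψa, RingHom.map_det]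
      rfl
    rw [h4, h2]
    refine Finset.dvd_sum fun m _ => ?_
    exact (dvd_mul_right g _).mul_left _
  · intro hdv
    set π : MvPolynomial (Fin 3) O →+* (MvPolynomial (Fin 3) (ResidueField O) ⧸ Ideal.span {τ}) :=
      (Ideal.Quotient.mk (Ideal.span {τ})).comp (MvPolynomial.map (residue O)) with hπ
    have hπ0 : ∀ y, π y = 0 ↔ τ ∣ MvPolynomial.map (residue O) y := by
      intro y
      rw [← Ideal.mem_span_singleton]
      exact Ideal.Quotient.eq_zero_iff_mem
    have hprime : (Ideal.span {τ}).IsPrime := (Ideal.span_singleton_prime hτ.ne_zero).2 hτ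
    have h1 : N.map π = Matrix.scalar E (π Ψ') := by
      ext m m'
      rw [Matrix.map_apply, hN, Matrix.of_apply, map_sub, map_sub]
      have h2 : π (P1 m m') = 0 := by
        rw [hπ0, hP1r]
        exact dvd_zero _
      have h3 : π (τ' * Q m m') = 0 := by
        rw [hπ0, map_mul, hτ']
        exact dvd_mul_right _ _
      rw [h2, h3, sub_zero, sub_zero, Matrix.scalar_apply, Matrix.diagonal_apply]
      split_ifs with hh
      · rfl
      · exact map_zero _
    have h2 : π N.det = (π Ψ') ^ Fintype.card E := by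
      rw [RingHom.map_det]
      change (N.map π).det = _
      rw [h1, Matrix.scalar_apply, Matrix.det_diagonal, Finset.prod_const, Finset.card_univ]
    have := Ideal.Quotient.isDomain (Ideal.span {τ})
    rw [(hπ0 _).2 hdv] at h2
    have h3 : Fintype.card E ≠ 0 := by
      intro h00
      rw [h00, pow_zero] at h2
      exact zero_ne_one h2
    exact hΨ ((hπ0 _).1 ((pow_eq_zero_iff h3).1 h2.symm))

end nak

/-- reduction commutes with substitution -/
theorem red_bind {R S : Type} [CommRing R] [CommRing S] (f : R →+* S)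
    (F : Fin 3 → MvPolynomial (Fin 3) R) (G : MvPolynomial (Fin 3) R) :
    MvPolynomial.map f (bind₁ F G) =
      bind₁ (fun i => MvPolynomial.map f (F i)) (MvPolynomial.map f G) := by
  rw [map_bind₁]

/-- THE KEY THEOREM -/
theorem fam_key {O : Type} [CommRing O] [IsDomain O] [ValuationRing O] {KK : Type} [Field KK]
    [Algebra O KK] [IsFractionRing O KK] {F : Fin 3 → MvPolynomial (Fin 3) O} {q e w d : ℕ}
    (hF : ∀ i, (F i).IsHomogeneous q) (hq : 0 < q)
    (hfin : ∃ n0, ∀ n ≥ n0, ∀ G : MvPolynomial (Fin 3) (ResidueField O), G.IsHomogeneous n →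
      G ∈ Ideal.span (Set.range fun i => MvPolynomial.map (residue O) (F i)))
    {g Kf : MvPolynomial (Fin 3) O} (hg : g.IsHomogeneous e) (he : 0 < e)
    (hg0 : MvPolynomial.map (residue O) g ≠ 0) (hKf : Kf.IsHomogeneous w)
    (hK : Irreducible (MvPolynomial.map (algebraMap O KK) Kf))
    (hK0 : MvPolynomial.map (residue O) Kf ≠ 0) (hdvd : g ∣ bind₁ F Kf)
    {τ : MvPolynomial (Fin 3) (ResidueField O)} (hτp : Prime τ) (hτ : τ.IsHomogeneous d)
    (hd : 0 < d) (hτK : τ ∣ MvPolynomial.map (residue O) Kf)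
    (hcop : IsRelPrime (MvPolynomial.map (residue O) g)
      (bind₁ (fun i => MvPolynomial.map (residue O) (F i)) τ)) : False := by
  classical
  obtain ⟨n1, hn1⟩ := hfin
  set n0 := max n1 q with hn0
  have hqn : q ≤ n0 := le_max_right _ _
  have hfinO := hfin_lift hF hqn (fun n hn => hn1 n ((le_max_left _ _).trans hn))
  have hfinK := hfin_frac (KK := KK) hfinO
  set Fb : Fin 3 → MvPolynomial (Fin 3) (ResidueField O) :=
    fun i => MvPolynomial.map (residue O) (F i) with hFb
  set FK : Fin 3 → MvPolynomial (Fin 3) KK :=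
    fun i => MvPolynomial.map (algebraMap O KK) (F i) with hFK
  have hinj : Function.Injective (MvPolynomial.map (σ := Fin 3) (algebraMap O KK)) :=
    MvPolynomial.map_injective _ (IsFractionRing.injective O KK)
  have hgne : g ≠ 0 := by
    rintro rfl
    exact hg0 (map_zero _)
  have hKne : Kf ≠ 0 := by
    rintro rfl
    exact hK0 (map_zero _)
  -- (PSI)
  have hτF : bind₁ Fb τ ≠ 0 := by
    intro h0
    rw [h0] at hcop
    have hu : IsUnit (MvPolynomial.map (residue O) g) := hcop dvd_rfl (dvd_zero _)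
    rw [MvPolynomial.isUnit_iff_eq_C_of_isReduced] at hu
    obtain ⟨c, _, hc⟩ := hu
    have h1 := (hg.map (residue O)).inj_right (by rw [hc]; exact isHomogeneous_C _ _) hg0
    omega
  obtain ⟨Ψ, hΨ, u, v, huv⟩ := psi (fun i => (hF i).map (residue O)) (hg.map (residue O)) hg0 hτ hd
    hτp.ne_zero hτF hcop hq
  obtain ⟨Ψ', hΨ'⟩ := MvPolynomial.map_surjective (residue O) residue_surjective Ψ
  obtain ⟨u', hu'⟩ := MvPolynomial.map_surjective (residue O) residue_surjective u
  obtain ⟨v', hv'⟩ := MvPolynomial.map_surjective (residue O) residue_surjective v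
  obtain ⟨τ', hτ'⟩ := MvPolynomial.map_surjective (residue O) residue_surjective τ
  obtain ⟨s, hs1, hs2⟩ := nak (A' := u') (B' := v') (Ψ' := Ψ') hF hq hqn hfinO hτp hτ'
    (by rwa [hΨ']) (g := g) (by
      rw [map_sub, map_sub, map_mul, map_mul, red_bind, red_bind, hΨ', hτ', hu', hv']
      change bind₁ Fb Ψ - _ - bind₁ Fb τ * v = 0
      rw [huv]
      ring)
  -- a homogeneous component
  obtain ⟨j, hj⟩ : ∃ j, ¬ τ ∣ MvPolynomial.map (residue O) (homogeneousComponent j s) := by
    by_contra hcon
    push Not at hcon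
    apply hs2
    conv_rhs => rw [← sum_homogeneousComponent s, map_sum]
    exact Finset.dvd_sum fun i _ => hcon i
  set sj := homogeneousComponent j s with hsj
  have hsjh : sj.IsHomogeneous j := homogeneousComponent_isHomogeneous j s
  have hgs : g ∣ bind₁ F sj := by
    rw [hsj, ← comp_bind hF hq]
    exact dvd_comp hg hs1 _
  have hsj0 : sj ≠ 0 := by
    intro h0
    rw [h0, map_zero] at hj
    exact hj (dvd_zero _)
  -- (UNI)
  have huni := uni (k := KK) (F := FK) (n0 := n0) (g := MvPolynomial.map (algebraMap O KK) g)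
    (Φ := MvPolynomial.map (algebraMap O KK) Kf) (Φ' := MvPolynomial.map (algebraMap O KK) sj)
    (fun i => (hF i).map (algebraMap O KK)) hq hqn hfinK (hg.map _) he
    (fun h => hgne (hinj (by rw [h, map_zero]))) (hKf.map _)
    (fun h => hKne (hinj (by rw [h, map_zero]))) (hsjh.map _)
    (fun h => hsj0 (hinj (by rw [h, map_zero])))
    (by rw [← red_bind]; exact map_dvd _ hdvd) (by rw [← red_bind]; exact map_dvd _ hgs)
  rw [hK.isRelPrime_iff_not_dvd, not_not] at huni
  have h5 : Kf ∣ sj := gauss_dvd hK0 hsj0 huni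
  exact hj (hτK.trans (map_dvd _ h5))

end Pool.DynLehmerFam
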