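import Mathlib
import Pool.Agent.Lib.MP_2194ec_nt.Energy
import Pool.Agent.Lib.MP_2194ec_nt.GenSpan

set_option autoImplicit false

/-!
# Theorem B, part (D): determinants with few independent rows modulo a power of the uniformiser
-/

namespace Pool.DynLehmerDet

open Module NumberField Pool.DynLehmer

variable {L : Type} [Field L] [NumberField L] (w : FinitePlace L)

/-- a basis of the span with integral coordinates -/
theorem exists_integral_basis {n H : ℕ} (f : Fin n → Fin H → L) {h : ℕ}
    (hh : finrank L (Submodule.span L (Set.range f)) = h) :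
    ∃ e : Fin h → Fin n, ∀ i, ∃ c : Fin h → L, (∀ j, w (c j) ≤ 1) ∧
        f i = ∑ j, c j • f (e j) := by
  classical
  set W := Submodule.span L (Set.range f) with hW
  -- coordinates
  let b : Basis (Fin h) L W := finBasisOfFinrankEq L W hh
  have hfW : ∀ i, f i ∈ W := fun i => Submodule.subset_span ⟨i, rfl⟩
  let g : Fin n → Fin h → L := fun i => b.equivFun ⟨f i, hfW i⟩
  -- a choice with maximal determinant
  obtain ⟨e, -, he⟩ := Finset.exists_max_image (Finset.univ : Finset (Fin h → Fin n))
    (fun e => w (Matrix.of fun j k => g (e j) k).det) (by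
      rcases Nat.eq_zero_or_pos n with hn | hn
      · subst hn
        have h0 : h = 0 := by
          rw [← hh, hW, Set.range_eq_empty f, Submodule.span_empty, finrank_bot]
        subst h0
        exact ⟨Fin.elim0, Finset.mem_univ _⟩
      · exact ⟨fun _ => ⟨0, hn⟩, Finset.mem_univ _⟩)
  have hspan : Submodule.span L (Set.range g) = ⊤ := by
    have h1 : Set.range g = b.equivFun '' (Subtype.val ⁻¹' (Set.range f)) := by
      ext y
      constructor
      · rintro ⟨i, rfl⟩
        exact ⟨⟨f i, hfW i⟩, ⟨i, rfl⟩, rfl⟩
      · rintro ⟨⟨_, hx⟩, ⟨i, rfl⟩, rfl⟩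
        exact ⟨i, rfl⟩
    rw [h1]
    have h2 : (b.equivFun : W → Fin h → L) '' (Subtype.val ⁻¹' (Set.range f)) =
        (b.equivFun : W →ₗ[L] Fin h → L) '' (Subtype.val ⁻¹' (Set.range f)) := rfl
    have h3 : Submodule.span L (Subtype.val ⁻¹' (Set.range f) : Set W) = ⊤ :=
      Submodule.span_span_coe_preimage
    rw [h2, ← Submodule.map_span, h3, Submodule.map_top]
    exact LinearEquiv.range _
  have hdet : (Matrix.of fun j k => g (e j) k).det ≠ 0 := by
    obtain ⟨g0, hg0, hd⟩ := exists_det_ne_zero _ hspan
    choose e0 he0 using hg0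
    have h1 := he e0 (Finset.mem_univ _)
    intro h2
    rw [h2, map_zero] at h1
    apply hd
    have h3 : (Matrix.of fun j k => g (e0 j) k) = (Matrix.of fun i a => g0 a i).transpose := by
      ext j k
      simp only [Matrix.of_apply, Matrix.transpose_apply, he0]
    rw [h3, Matrix.det_transpose] at h1
    have h4 := le_antisymm h1 (apply_nonneg w _)
    by_contra h5
    exact (FinitePlace.pos_iff.2 h5).ne' h4
  refine ⟨e, fun i => ?_⟩
  set M := (Matrix.of fun j k => g (e j) k) with hM
  refine ⟨fun j => M.det⁻¹ * M.transpose.cramer (g i) j, fun j => ?_, ?_⟩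
  · have h1 : M.transpose.cramer (g i) j = (Matrix.of fun j' k => g (Function.update e j i j') k).det := by
      rw [Matrix.cramer_apply, Matrix.updateCol_transpose, Matrix.det_transpose]
      congr 1
      ext j' k
      rw [Matrix.updateRow_apply, Matrix.of_apply]
      by_cases hj : j' = j
      · subst hj; simp
      · simp [hj, hM]
    rw [map_mul, map_inv₀, h1]
    have h2 := he (Function.update e j i) (Finset.mem_univ _)
    have h3 : 0 < w M.det := FinitePlace.pos_iff.2 hdet
    rw [inv_mul_le_iff₀ h3, mul_one]
    exact h2
  · have h1 : g i = ∑ j, (M.det⁻¹ * M.transpose.cramer (g i) j) • g (e j) := by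
      have h2 := Matrix.mulVec_cramer M.transpose (g i)
      rw [Matrix.det_transpose] at h2
      funext k
      have h3 := congrFun h2 k
      simp only [Matrix.mulVec, dotProduct, Matrix.transpose_apply, Pi.smul_apply, smul_eq_mul] at h3
      rw [Finset.sum_apply]
      simp only [Pi.smul_apply, smul_eq_mul]
      have h4 : ∑ j, M.det⁻¹ * M.transpose.cramer (g i) j * g (e j) k =
          M.det⁻¹ * ∑ j, M j k * M.transpose.cramer (g i) j := by
        rw [Finset.mul_sum]
        refine Finset.sum_congr rfl fun j _ => ?_
        rw [hM, Matrix.of_apply]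
        ring
      rw [h4, h3, inv_mul_cancel_left₀ hdet]
    have h5 : (⟨f i, hfW i⟩ : W) =
        ∑ j, (M.det⁻¹ * M.transpose.cramer (g i) j) • (⟨f (e j), hfW (e j)⟩ : W) := by
      apply b.equivFun.injective
      rw [map_sum]
      simp only [map_smul]
      exact h1
    have h6 := congrArg Subtype.val h5
    rw [AddSubmonoidClass.coe_finsetSum] at h6
    exact h6

/-- the gain -/
theorem det_gain {H : ℕ} {E : Type} [Fintype E] (A : Fin H → Fin H → L)
    (e : E → Fin H → L) (c : Fin H → E → L) (u : Fin H → Fin H → L) {ρ : ℝ}
    (hρ0 : 0 ≤ ρ) (hρ : ρ ≤ 1) (hA : ∀ i b, A i b = ∑ j, c i j * e j b + u i b)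
    (he : ∀ j b, w (e j b) ≤ 1) (hc : ∀ i j, w (c i j) ≤ 1) (hu : ∀ i b, w (u i b) ≤ ρ) :
    w (Matrix.of A).det ≤ ρ ^ (H - Fintype.card E) := by
  classical
  -- expand every row
  set g : Fin H → Option E → Fin H → L := fun i o => match o with
    | none => u i
    | some j => c i j • e j with hg
  have h1 : (Matrix.of A) = fun i => ∑ o : Option E, g i o := by
    funext i
    rw [Fintype.sum_option]
    funext b
    simp only [Matrix.of_apply, hA, hg, Pi.add_apply, Finset.sum_apply, Pi.smul_apply, smul_eq_mul]
    ring
  change w (Matrix.detRowAlternating (Matrix.of A)) ≤ _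
  rw [h1]
  have h2 := (Matrix.detRowAlternating (R := L) (n := Fin H)).toMultilinearMap.map_sum g
  change w ((Matrix.detRowAlternating (R := L) (n := Fin H)).toMultilinearMap _) ≤ _
  rw [h2]
  refine finitePlace_sum_le w _ _ _ (pow_nonneg hρ0 _) fun s _ => ?_
  change w (Matrix.det fun i => g i (s i)) ≤ _
  by_cases hs : Fintype.card E < (Finset.univ.filter fun i => s i ≠ none).card
  · -- two rows are proportional
    have h4 : ∃ i ∈ (Finset.univ.filter fun i => s i ≠ none),
        ∃ i' ∈ (Finset.univ.filter fun i => s i ≠ none), i ≠ i' ∧ s i = s i' := by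
      refine Finset.exists_ne_map_eq_of_card_lt_of_maps_to
        (t := (Finset.univ : Finset E).image some) ?_ ?_
      · rw [Finset.card_image_of_injective _ (Option.some_injective _), Finset.card_univ]
        exact hs
      · intro i hi
        have h5 : s i ≠ none := (Finset.mem_filter.1 hi).2
        obtain ⟨j, hj⟩ := Option.ne_none_iff_exists'.1 h5
        rw [hj]
        exact Finset.mem_coe.2 (Finset.mem_image_of_mem _ (Finset.mem_univ j))
    obtain ⟨i, hi, i', hi', hne, hii⟩ := h4
    have h5 : s i ≠ none := (Finset.mem_filter.1 hi).2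
    obtain ⟨j, hj⟩ := Option.ne_none_iff_exists'.1 h5
    -- factor the coefficients out
    set a : Fin H → L := fun i => match s i with
      | none => 1
      | some j => c i j with ha
    set r : Fin H → Fin H → L := fun i => match s i with
      | none => u i
      | some j => e j with hr
    have h6 : (fun i => g i (s i)) = fun i b => a i * r i b := by
      funext i b
      simp only [hg, ha, hr]
      rcases s i with _ | j <;> simp
    have h7 : Matrix.det (fun i b => a i * r i b) = (∏ i, a i) * Matrix.det r :=
      Matrix.det_mul_column a r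
    have h8 : Matrix.det r = 0 := Matrix.det_zero_of_row_eq hne (by simp only [hr, ← hii, hj])
    rw [h6, h7, h8, mul_zero, map_zero]
    exact pow_nonneg hρ0 _
  · push Not at hs
    have h5 : H - Fintype.card E ≤ (Finset.univ.filter fun i => ¬ s i ≠ none).card := by
      have h6 := Finset.card_filter_add_card_filter_not (s := (Finset.univ : Finset (Fin H)))
        (fun i => s i ≠ none)
      rw [Finset.card_univ, Fintype.card_fin] at h6
      omega
    refine le_trans ?_ (pow_le_pow_of_le_one hρ0 hρ h5)
    have h6 := det_le_finite w (fun i => g i (s i)) (fun i => if s i = none then ρ else 1)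
      (fun i => by split_ifs <;> [exact hρ0; norm_num]) (fun i b => by
        rcases hsi : s i with _ | j
        · simp only [hg, if_pos]
          exact hu i b
        · simp only [hg, reduceCtorEq, if_false, Pi.smul_apply, smul_eq_mul, map_mul]
          exact mul_le_one₀ (hc i j) (apply_nonneg w _) (he j b))
    refine h6.trans (le_of_eq ?_)
    rw [Finset.prod_ite, Finset.prod_const, Finset.prod_const_one, mul_one]
    congr 2
    ext i
    simp

end Pool.DynLehmerDet
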