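import Mathlib

set_option autoImplicit false

/-!
# Theorem B, part (I): independence of the levels, abstract form

`exists_dependent`: if the rank on all levels together is less than `c⁻¹` times the sum of the
ranks, then every form of small degree which vanishes at some `R r'` vanishes at a later `R r`.
`growth`: `H(2 t) ≤ 2 ^ N H(t)` for the ranks of one point of `P^N`.
-/

namespace Pool.DynLehmerIndep

open MvPolynomial Module

section indep

variable {K L : Type*} [Field K] [Field L] [Algebra K L] {ι : Type*}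

/-- the values at `x` of the forms of degree `t` over `K` -/
noncomputable def valS (K : Type*) {L : Type*} [Field K] [Field L] [Algebra K L] {ι : Type*}
    (x : ι → L) (t : ℕ) : Submodule K L :=
  (homogeneousSubmodule ι K t).map (aeval x).toLinearMap

/-- the forms of degree `t` which vanish at the first `r` points -/
noncomputable def JJ (K : Type*) {L : Type*} [Field K] [Field L] [Algebra K L] {ι : Type*}
    (R : ℕ → ι → L) (t r : ℕ) : Submodule K (MvPolynomial ι K) :=
  homogeneousSubmodule ι K t ⊓ ⨅ j ∈ Finset.range r, LinearMap.ker (aeval (R j)).toLinearMap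

theorem mem_JJ {R : ℕ → ι → L} {t r : ℕ} {F : MvPolynomial ι K} :
    F ∈ JJ K R t r ↔ F.IsHomogeneous t ∧ ∀ j < r, aeval (R j) F = 0 := by
  unfold JJ
  simp [Submodule.mem_iInf]

theorem JJ_zero (R : ℕ → ι → L) (t : ℕ) : JJ K R t 0 = homogeneousSubmodule ι K t := by
  ext F
  rw [mem_JJ, mem_homogeneousSubmodule]
  simp

theorem JJ_le (R : ℕ → ι → L) (t r : ℕ) : JJ K R t r ≤ homogeneousSubmodule ι K t := inf_le_left

variable [Finite ι]

instance finite_homog (t : ℕ) : FiniteDimensional K (homogeneousSubmodule ι K t) :=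
  Module.Finite.iff_fg.2 (homogeneousSubmodule_fg ι K t)

instance finite_JJ (R : ℕ → ι → L) (t r : ℕ) : FiniteDimensional K (JJ K R t r) :=
  Submodule.finiteDimensional_of_le (JJ_le R t r)

instance finite_valS (x : ι → L) (t : ℕ) : FiniteDimensional K (valS K x t) := by
  unfold valS; infer_instance

/-- rank-nullity, one level -/
theorem JJ_succ (R : ℕ → ι → L) (t r : ℕ) :
    finrank K (JJ K R t r) = finrank K (JJ K R t (r + 1)) +
      finrank K ((JJ K R t r).map (aeval (R r)).toLinearMap : Submodule K L) := by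
  set g : JJ K R t r →ₗ[K] L := (aeval (R r)).toLinearMap.domRestrict (JJ K R t r) with hg
  have h1 := LinearMap.finrank_range_add_finrank_ker g
  have h2 : LinearMap.range g = (JJ K R t r).map (aeval (R r)).toLinearMap := by
    rw [hg, LinearMap.range_domRestrict]
  have h3 : (LinearMap.ker g).map (JJ K R t r).subtype = JJ K R t (r + 1) := by
    ext F
    rw [mem_JJ, Submodule.mem_map]
    constructor
    · rintro ⟨⟨F, hF⟩, hk, rfl⟩
      rw [mem_JJ] at hF
      refine ⟨hF.1, fun j hj => ?_⟩
      rcases Nat.lt_succ_iff_lt_or_eq.1 hj with h | h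
      · exact hF.2 j h
      · subst h
        rw [LinearMap.mem_ker] at hk
        exact hk
    · rintro ⟨h4, h5⟩
      refine ⟨⟨F, mem_JJ.2 ⟨h4, fun j hj => h5 j (Nat.lt_succ_of_lt hj)⟩⟩, ?_, rfl⟩
      rw [LinearMap.mem_ker]
      exact h5 r (Nat.lt_succ_self r)
  have h4 : finrank K (LinearMap.ker g) = finrank K (JJ K R t (r + 1)) := by
    rw [← h3]
    exact (Submodule.equivMapOfInjective _ (Submodule.injective_subtype _)
      (LinearMap.ker g)).finrank_eq
  rw [h2, h4] at h1
  omega

/-- the rank on the first `k` levels together -/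
noncomputable def HFam (K : Type*) {L : Type*} [Field K] [Field L] [Algebra K L] {ι : Type*}
    (R : ℕ → ι → L) (k t : ℕ) : ℕ :=
  finrank K (homogeneousSubmodule ι K t) - finrank K (JJ K R t k)

theorem sum_ranks (R : ℕ → ι → L) (t k : ℕ) :
    finrank K (homogeneousSubmodule ι K t) = finrank K (JJ K R t k) +
      ∑ r ∈ Finset.range k,
        finrank K ((JJ K R t r).map (aeval (R r)).toLinearMap : Submodule K L) := by
  induction k with
  | zero => rw [JJ_zero]; simp
  | succ k ih => rw [Finset.sum_range_succ, ih, JJ_succ R t k]; ring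

omit [Finite ι] in
/-- multiplication by forms not vanishing at `x` -/
theorem valS_le_of_mul {x : ι → L} {A : MvPolynomial ι K} {s : ℕ}
    (hAx : aeval x A ≠ 0) {W : Submodule K (MvPolynomial ι K)} [FiniteDimensional K W]
    (hW : ∀ B : MvPolynomial ι K, B.IsHomogeneous s → A * B ∈ W) :
    finrank K (valS K x s) ≤ finrank K (W.map (aeval x).toLinearMap : Submodule K L) := by
  have h1 : (valS K x s).map (LinearMap.mulLeft K (aeval x A)) ≤
      W.map (aeval x).toLinearMap := by
    rintro _ ⟨_, ⟨B, hB, rfl⟩, rfl⟩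
    refine ⟨A * B, hW B hB, ?_⟩
    simp
  have h2 : Function.Injective (LinearMap.mulLeft K (aeval x A)) := by
    intro u v huv
    simp only [LinearMap.mulLeft_apply] at huv
    exact mul_left_cancel₀ hAx huv
  rw [(Submodule.equivMapOfInjective _ h2 (valS K x s)).finrank_eq]
  exact Submodule.finrank_mono h1

/-- monotonicity of the rank -/
theorem valS_mono {x : ι → L} (hx : x ≠ 0) {s t : ℕ} (hst : s ≤ t) :
    finrank K (valS K x s) ≤ finrank K (valS K x t) := by
  obtain ⟨i, hi⟩ := Function.ne_iff.1 hx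
  have hA : ((X i : MvPolynomial ι K) ^ (t - s)).IsHomogeneous (t - s) := by
    simpa using (isHomogeneous_X K i).pow (t - s)
  have hAx : aeval x ((X i : MvPolynomial ι K) ^ (t - s)) ≠ 0 := by
    rw [map_pow, aeval_X]; exact pow_ne_zero _ hi
  refine valS_le_of_mul hAx (W := homogeneousSubmodule ι K t) fun B hB => ?_
  rw [mem_homogeneousSubmodule]
  have := hA.mul hB
  rwa [Nat.sub_add_cancel hst] at this

/-- (I) -/
theorem exists_dependent (R : ℕ → ι → L) (hR : ∀ r, R r ≠ 0) (k c T T' s : ℕ)
    (hT : k * s + T' ≤ T)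
    (hgrow : ∀ r < k, finrank K (valS K (R r) T) ≤ c * finrank K (valS K (R r) T'))
    (hlt : c * (finrank K (homogeneousSubmodule ι K T) - finrank K (JJ K R T k)) <
      ∑ r ∈ Finset.range k, finrank K (valS K (R r) T)) :
    ∃ r' r : ℕ, r' < r ∧ r < k ∧ ∀ b ≤ s, ∀ F : MvPolynomial ι K, F.IsHomogeneous b →
      aeval (R r') F = 0 → aeval (R r) F = 0 := by
  classical
  -- a level with small rank of `JJ`
  have h1 : ∃ r < k, c * finrank K ((JJ K R T r).map (aeval (R r)).toLinearMap : Submodule K L) <
      finrank K (valS K (R r) T) := by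
    by_contra hcon
    push Not at hcon
    have h2 := Finset.sum_le_sum fun r (hr : r ∈ Finset.range k) => hcon r (Finset.mem_range.1 hr)
    rw [← Finset.mul_sum] at h2
    have h3 := sum_ranks (K := K) R T k
    rw [h3, Nat.add_sub_cancel_left] at hlt
    omega
  obtain ⟨r, hrk, hr⟩ := h1
  by_contra hcon
  push Not at hcon
  -- forms
  have h4 : ∀ r' : ℕ, ∃ (b : ℕ) (F : MvPolynomial ι K), b ≤ s ∧ F.IsHomogeneous b ∧
      (r' < r → aeval (R r') F = 0) ∧ aeval (R r) F ≠ 0 := by
    intro r'
    by_cases hr' : r' < r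
    · obtain ⟨b, hb, F, hF, h5, h6⟩ := hcon r' r hr' hrk
      exact ⟨b, F, hb, hF, fun _ => h5, h6⟩
    · exact ⟨0, 1, Nat.zero_le _, isHomogeneous_one _ _, fun h => absurd h hr', by simp⟩
  choose b A hb hA hA0 hA1 using h4
  set P : MvPolynomial ι K := ∏ r' ∈ Finset.range r, A r' with hP
  have hPh : P.IsHomogeneous (∑ r' ∈ Finset.range r, b r') :=
    IsHomogeneous.prod _ _ _ fun i _ => hA i
  have hPx : aeval (R r) P ≠ 0 := by
    rw [hP, map_prod]
    exact Finset.prod_ne_zero_iff.2 fun i _ => hA1 i
  have hdeg : ∑ r' ∈ Finset.range r, b r' ≤ k * s := by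
    calc ∑ r' ∈ Finset.range r, b r' ≤ ∑ r' ∈ Finset.range r, s :=
          Finset.sum_le_sum fun i _ => hb i
      _ = r * s := by rw [Finset.sum_const, Finset.card_range, smul_eq_mul]
      _ ≤ k * s := Nat.mul_le_mul_right s hrk.le
  set a := ∑ r' ∈ Finset.range r, b r' with ha
  have h7 : finrank K (valS K (R r) (T - a)) ≤
      finrank K ((JJ K R T r).map (aeval (R r)).toLinearMap : Submodule K L) := by
    refine valS_le_of_mul hPx (W := JJ K R T r) fun B hB => ?_
    rw [mem_JJ]
    refine ⟨?_, fun j hj => ?_⟩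
    · have := hPh.mul hB
      rwa [Nat.add_sub_cancel' (by omega)] at this
    · rw [map_mul, hP, map_prod, Finset.prod_eq_zero (Finset.mem_range.2 hj) (hA0 j hj), zero_mul]
  have h8 : finrank K (valS K (R r) T') ≤ finrank K (valS K (R r) (T - a)) :=
    valS_mono (hR r) (by omega)
  have h9 := hgrow r hrk
  have h10 : c * finrank K (valS K (R r) T') ≤
      c * finrank K ((JJ K R T r).map (aeval (R r)).toLinearMap : Submodule K L) :=
    Nat.mul_le_mul_left c (h8.trans h7)
  omega

end indep

section greedy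

variable {K V : Type*} [Field K] [AddCommGroup V] [Module K V] [FiniteDimensional K V]
  {α : Type*} [LinearOrder α]

open Classical in
/-- the greedy basis -/
theorem greedy (v : α → V) (S : Finset α) :
    finrank K (Submodule.span K (v '' (S : Set α))) =
      (S.filter fun i => v i ∉ Submodule.span K (v '' {j | j ∈ S ∧ j < i})).card := by
  induction S using Finset.induction_on_max with
  | empty => simp
  | insert a s ha ih =>
    have has : a ∉ s := fun h => lt_irrefl a (ha a h)
    have h1 : {j | j ∈ insert a s ∧ j < a} = (s : Set α) := by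
      ext j
      simp only [Finset.mem_insert, Set.mem_ofPred_eq, Finset.mem_coe]
      constructor
      · rintro ⟨h | h, h2⟩
        · exact absurd h2 (by rw [h]; exact lt_irrefl a)
        · exact h
      · intro h
        exact ⟨Or.inr h, ha j h⟩
    have h2 : ∀ i ∈ s, {j | j ∈ insert a s ∧ j < i} = {j | j ∈ s ∧ j < i} := by
      intro i hi
      ext j
      simp only [Finset.mem_insert, Set.mem_ofPred_eq]
      constructor
      · rintro ⟨h | h, h2⟩
        · exact absurd (ha i hi) (by rw [← h]; exact not_lt.2 h2.le)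
        · exact ⟨h, h2⟩
      · rintro ⟨h, h2⟩
        exact ⟨Or.inr h, h2⟩
    rw [Finset.filter_insert, h1]
    have h3 : (s.filter fun i => v i ∉ Submodule.span K (v '' {j | j ∈ insert a s ∧ j < i})) =
        s.filter fun i => v i ∉ Submodule.span K (v '' {j | j ∈ s ∧ j < i}) := by
      apply Finset.filter_congr
      intro i hi
      rw [h2 i hi]
    rw [h3, Finset.coe_insert, Set.image_insert_eq]
    by_cases hv : v a ∈ Submodule.span K (v '' (s : Set α))
    · rw [if_neg (not_not.2 hv), Submodule.span_insert_eq_span hv, ih]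
    · rw [if_pos hv, Finset.card_insert_of_notMem (fun h => has (Finset.mem_of_mem_filter _ h)),
        ← ih, Submodule.span_insert, sup_comm, Submodule.finrank_sup_span_singleton hv]

end greedy

section growth

variable {K L : Type*} [Field K] [Field L] [Algebra K L] [FiniteDimensional K L] {N : ℕ}

/-- the monomials of degree `t` -/
noncomputable def Mon (N t : ℕ) : Finset (Fin (N + 1) →₀ ℕ) :=
  (Finset.univ : Finset (Fin (N + 1))).finsuppAntidiag t

theorem mem_Mon {t : ℕ} {m : Fin (N + 1) →₀ ℕ} : m ∈ Mon N t ↔ ∑ i, m i = t := by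
  unfold Mon
  rw [Finset.mem_finsuppAntidiag]
  constructor
  · rintro ⟨h, _⟩; exact h
  · intro h; exact ⟨h, Finset.subset_univ _⟩

/-- the value of a monomial -/
noncomputable def mv (x : Fin (N + 1) → L) (m : Fin (N + 1) →₀ ℕ) : L := ∏ i, x i ^ m i

theorem mv_add (x : Fin (N + 1) → L) (m m' : Fin (N + 1) →₀ ℕ) :
    mv x (m + m') = mv x m * mv x m' := by
  unfold mv
  rw [← Finset.prod_mul_distrib]
  exact Finset.prod_congr rfl fun i _ => by rw [Finsupp.add_apply, pow_add]

omit [FiniteDimensional K L] in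
theorem valS_eq_span (x : Fin (N + 1) → L) (t : ℕ) :
    valS K x t = Submodule.span K (mv x '' (Mon N t : Set (Fin (N + 1) →₀ ℕ))) := by
  apply le_antisymm
  · rintro _ ⟨F, hF, rfl⟩
    have hF' : F.IsHomogeneous t := hF
    show aeval x F ∈ _
    rw [F.as_sum, map_sum]
    refine Submodule.sum_mem _ fun m hm => ?_
    have h1 : aeval x (monomial m (coeff m F)) = coeff m F • mv x m := by
      rw [aeval_monomial, Algebra.smul_def, mv, Finsupp.prod_fintype]
      intro i; exact pow_zero _
    rw [h1]
    refine Submodule.smul_mem _ _ (Submodule.subset_span ⟨m, ?_, rfl⟩)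
    rw [Finset.mem_coe, mem_Mon]
    have := hF' (mem_support_iff.1 hm)
    rw [← this, Finsupp.weight_apply, Finsupp.sum_fintype]
    · simp
    · intro i; simp
  · rw [Submodule.span_le]
    rintro _ ⟨m, hm, rfl⟩
    rw [Finset.mem_coe, mem_Mon] at hm
    refine ⟨monomial m 1, ?_, ?_⟩
    · rw [SetLike.mem_coe, mem_homogeneousSubmodule]
      apply isHomogeneous_monomial
      rw [Finsupp.degree_eq_sum]
      exact hm
    · show aeval x (monomial m (1 : K)) = _
      rw [aeval_monomial, map_one, one_mul, mv, Finsupp.prod_fintype]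
      intro i; exact pow_zero _

open Classical in
/-- the standard monomials -/
noncomputable def Std (K : Type*) {L : Type*} [Field K] [Field L] [Algebra K L] {N : ℕ}
    (x : Fin (N + 1) → L) (t : ℕ) : Finset (Fin (N + 1) →₀ ℕ) :=
  (Mon N t).filter fun m => mv x m ∉ Submodule.span K
    (mv x '' {m' | m' ∈ Mon N t ∧ MonomialOrder.lex.toSyn m' < MonomialOrder.lex.toSyn m})

theorem card_Std (x : Fin (N + 1) → L) (t : ℕ) : (Std K x t).card = finrank K (valS K x t) := by
  classical
  set e := (MonomialOrder.lex (σ := Fin (N + 1))).toSyn with he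
  have h := greedy (K := K) (fun s => mv x (e.symm s)) ((Mon N t).map e.toEquiv.toEmbedding)
  have h1 : (fun s => mv x (e.symm s)) '' (((Mon N t).map e.toEquiv.toEmbedding : Finset _) :
      Set (MonomialOrder.lex (σ := Fin (N + 1))).syn) = mv x '' (Mon N t : Set _) := by
    ext y
    simp only [Finset.coe_map, Set.mem_image]
    constructor
    · rintro ⟨_, ⟨m, hm, rfl⟩, rfl⟩
      exact ⟨m, hm, by simp⟩
    · rintro ⟨m, hm, rfl⟩
      exact ⟨_, ⟨m, hm, rfl⟩, by simp⟩
  rw [h1, ← valS_eq_span] at h
  rw [h, Finset.filter_map, Finset.card_map]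
  unfold Std
  refine congrArg Finset.card (Finset.filter_congr fun m hm => ?_)
  have h2 : (mv x '' {m' | m' ∈ Mon N t ∧ e m' < e m}) = (fun s => mv x (e.symm s)) ''
      {j | j ∈ (Mon N t).map e.toEquiv.toEmbedding ∧ j < e.toEquiv.toEmbedding m} := by
    ext y
    simp only [Set.mem_image, Set.mem_ofPred_eq, Finset.mem_map]
    constructor
    · rintro ⟨m', ⟨h3, h4⟩, rfl⟩
      exact ⟨e m', ⟨⟨m', h3, rfl⟩, h4⟩, by simp⟩
    · rintro ⟨_, ⟨⟨m', h3, rfl⟩, h4⟩, rfl⟩
      exact ⟨m', ⟨h3, h4⟩, by simp⟩
  have h3 : mv x m = (fun s => mv x (e.symm s)) (e.toEquiv.toEmbedding m) := by simp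
  show ¬ (mv x m ∈ Submodule.span K (mv x '' {m' | m' ∈ Mon N t ∧ e m' < e m})) ↔ _
  rw [h2, h3]
  rfl

omit [FiniteDimensional K L] in
/-- divisors of standard monomials are standard -/
theorem Std_pred (x : Fin (N + 1) → L) (t : ℕ) {m : Fin (N + 1) →₀ ℕ} {i : Fin (N + 1)}
    (hm : m ∈ Std K x (t + 1)) (hi : m i ≠ 0) :
    ∃ m' ∈ Std K x t, m = m' + Finsupp.single i 1 := by
  classical
  unfold Std at hm
  rw [Finset.mem_filter] at hm
  obtain ⟨hm1, hm2⟩ := hm
  have h1 : m - Finsupp.single i 1 + Finsupp.single i 1 = m := by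
    apply tsub_add_cancel_of_le
    rw [Finsupp.single_le_iff]
    omega
  set m' := m - Finsupp.single i 1 with hm'
  have hdeg : ∀ q : Fin (N + 1) →₀ ℕ,
      ∑ j, (q + Finsupp.single i 1 : Fin (N + 1) →₀ ℕ) j = (∑ j, q j) + 1 := by
    intro q
    simp only [Finsupp.add_apply, Finset.sum_add_distrib]
    congr 1
    rw [Finset.sum_eq_single i]
    · simp
    · intro j _ hj; simp [Ne.symm hj]
    · intro h; exact absurd (Finset.mem_univ i) h
  refine ⟨m', ?_, h1.symm⟩
  unfold Std
  rw [Finset.mem_filter]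
  refine ⟨?_, ?_⟩
  · rw [mem_Mon] at hm1 ⊢
    rw [← h1, hdeg] at hm1
    omega
  · intro hspan
    apply hm2
    rw [← h1, mv_add, mul_comm]
    have h2 : mv x (Finsupp.single i 1) * mv x m' ∈ (Submodule.span K
        (mv x '' {q | q ∈ Mon N t ∧ MonomialOrder.lex.toSyn q < MonomialOrder.lex.toSyn m'})).map
        (LinearMap.mulLeft K (mv x (Finsupp.single i 1))) := ⟨_, hspan, rfl⟩
    rw [Submodule.map_span] at h2
    refine Submodule.span_mono ?_ h2
    rintro _ ⟨_, ⟨q, ⟨hq1, hq2⟩, rfl⟩, rfl⟩
    refine ⟨q + Finsupp.single i 1, ⟨?_, ?_⟩, ?_⟩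
    · rw [mem_Mon, hdeg]
      rw [mem_Mon] at hq1
      omega
    · rw [map_add, map_add]
      exact add_lt_add_left hq2 _
    · rw [mv_add, mul_comm]; rfl

/-- one step of the growth bound -/
theorem growth_step (x : Fin (N + 1) → L) (t : ℕ) :
    (t + 1) * finrank K (valS K x (t + 1)) ≤ (t + N + 1) * finrank K (valS K x t) := by
  classical
  rw [← card_Std, ← card_Std]
  have h1 : ∑ m ∈ Std K x (t + 1), ∑ i, m i = (t + 1) * (Std K x (t + 1)).card := by
    rw [Finset.sum_congr rfl (g := fun _ => t + 1), Finset.sum_const, smul_eq_mul, mul_comm]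
    intro m hm
    unfold Std at hm
    exact mem_Mon.1 (Finset.mem_filter.1 hm).1
  have h2 : ∑ m ∈ Std K x t, ∑ i, (m i + 1) = (t + N + 1) * (Std K x t).card := by
    rw [Finset.sum_congr rfl (g := fun _ => t + N + 1), Finset.sum_const, smul_eq_mul, mul_comm]
    intro m hm
    unfold Std at hm
    rw [Finset.sum_add_distrib, mem_Mon.1 (Finset.mem_filter.1 hm).1]
    simp [add_assoc]
  rw [← h1, ← h2, Finset.sum_comm, Finset.sum_comm (s := Std K x t)]
  refine Finset.sum_le_sum fun i _ => ?_
  -- the sum over `m` with `m i ≠ 0`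
  rw [← Finset.sum_filter_add_sum_filter_not (Std K x (t + 1)) (fun m => m i ≠ 0)]
  have h3 : ∑ m ∈ (Std K x (t + 1)).filter (fun m => ¬ m i ≠ 0), m i = 0 := by
    apply Finset.sum_eq_zero
    intro m hm
    simpa using (Finset.mem_filter.1 hm).2
  rw [h3, add_zero]
  have h4 : (Std K x (t + 1)).filter (fun m => m i ≠ 0) ⊆
      (Std K x t).image (fun m' => m' + Finsupp.single i 1) := by
    intro m hm
    rw [Finset.mem_filter] at hm
    obtain ⟨m', hm', h5⟩ := Std_pred x t hm.1 hm.2
    exact Finset.mem_image.2 ⟨m', hm', h5.symm⟩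
  calc ∑ m ∈ (Std K x (t + 1)).filter (fun m => m i ≠ 0), m i
      ≤ ∑ m ∈ (Std K x t).image (fun m' => m' + Finsupp.single i 1), m i :=
        Finset.sum_le_sum_of_subset h4
    _ = ∑ m' ∈ Std K x t, (m' + Finsupp.single i 1 : Fin (N + 1) →₀ ℕ) i := by
        rw [Finset.sum_image]
        intro a _ b _ hab
        exact add_right_cancel hab
    _ = ∑ m' ∈ Std K x t, (m' i + 1) := by
        apply Finset.sum_congr rfl
        intro m' _
        simp

/-- the growth bound -/
theorem growth (x : Fin (N + 1) → L) {t s : ℕ} (hts : t ≤ s) :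
    finrank K (valS K x s) * (t + N).choose N ≤ finrank K (valS K x t) * (s + N).choose N := by
  induction s, hts using Nat.le_induction with
  | base => exact le_rfl
  | succ s hs ih =>
    have h1 := growth_step (K := K) x s
    have h2 : (s + 1) * (s + 1 + N).choose N = (s + N + 1) * (s + N).choose N := by
      have h3 := Nat.add_one_mul_choose_eq (s + N) s
      have h4 : (s + 1 + N).choose N = (s + N).succ.choose (s + 1) := by
        rw [show s + 1 + N = (s + N).succ by omega]
        exact (Nat.choose_symm_of_eq_add (by omega)).symm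
      have h5 : (s + N).choose N = (s + N).choose s := (Nat.choose_symm_of_eq_add (by omega)).symm
      rw [h4, h5]
      rw [h3]
      exact mul_comm _ _
    have h6 : 0 < s + 1 := Nat.succ_pos s
    apply Nat.le_of_mul_le_mul_left _ h6
    calc (s + 1) * (finrank K (valS K x (s + 1)) * (t + N).choose N)
        = ((s + 1) * finrank K (valS K x (s + 1))) * (t + N).choose N := by ring
      _ ≤ ((s + N + 1) * finrank K (valS K x s)) * (t + N).choose N := Nat.mul_le_mul_right _ h1
      _ = (s + N + 1) * (finrank K (valS K x s) * (t + N).choose N) := by ring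
      _ ≤ (s + N + 1) * (finrank K (valS K x t) * (s + N).choose N) := Nat.mul_le_mul_left _ ih
      _ = finrank K (valS K x t) * ((s + N + 1) * (s + N).choose N) := by ring
      _ = (s + 1) * (finrank K (valS K x t) * (s + 1 + N).choose N) := by rw [← h2]; ring

theorem choose_double (t N : ℕ) : (2 * t + N).choose N ≤ 2 ^ N * (t + N).choose N := by
  induction N with
  | zero => simp
  | succ N ih =>
    have h1 : (N + 1) * (2 * t + N + 1).choose (N + 1) = (2 * t + N + 1) * (2 * t + N).choose N := by
      rw [Nat.add_one_mul_choose_eq (2 * t + N) N]; ring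
    have h2 : (N + 1) * (t + N + 1).choose (N + 1) = (t + N + 1) * (t + N).choose N := by
      rw [Nat.add_one_mul_choose_eq (t + N) N]; ring
    apply Nat.le_of_mul_le_mul_left _ (Nat.succ_pos N)
    rw [Nat.succ_eq_add_one]
    calc (N + 1) * (2 * t + (N + 1)).choose (N + 1) = (2 * t + N + 1) * (2 * t + N).choose N := h1
      _ ≤ (2 * (t + N + 1)) * (2 ^ N * (t + N).choose N) := Nat.mul_le_mul (by omega) ih
      _ = 2 ^ (N + 1) * ((t + N + 1) * (t + N).choose N) := by rw [pow_succ]; ring
      _ = 2 ^ (N + 1) * ((N + 1) * (t + N + 1).choose (N + 1)) := by rw [h2]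
      _ = (N + 1) * (2 ^ (N + 1) * (t + (N + 1)).choose (N + 1)) := by
        rw [show t + (N + 1) = t + N + 1 by omega]; ring

/-- `H(2 t) ≤ 2 ^ N H(t)` -/
theorem growth_double (x : Fin (N + 1) → L) (t : ℕ) :
    finrank K (valS K x (2 * t)) ≤ 2 ^ N * finrank K (valS K x t) := by
  have h1 := growth (K := K) x (show t ≤ 2 * t by omega)
  have h2 := choose_double t N
  have h3 : 0 < (t + N).choose N := Nat.choose_pos (by omega)
  apply Nat.le_of_mul_le_mul_right _ h3
  calc finrank K (valS K x (2 * t)) * (t + N).choose N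
      ≤ finrank K (valS K x t) * (2 * t + N).choose N := h1
    _ ≤ finrank K (valS K x t) * (2 ^ N * (t + N).choose N) := Nat.mul_le_mul_left _ h2
    _ = 2 ^ N * finrank K (valS K x t) * (t + N).choose N := by ring

end growth

end Pool.DynLehmerIndep
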