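import Mathlib

set_option autoImplicit false

/-!
# Taylor expansion of polynomials in several variables
-/

namespace Pool.DynLehmerTay

open MvPolynomial

variable {R : Type*} [CommRing R] {ι : Type*}

theorem wt_one (d : ι →₀ ℕ) : Finsupp.weight (1 : ι → ℕ) d = d.degree := by
  rw [Finsupp.degree_eq_weight_one]; rfl

/-- `A (X + Y)` as a polynomial in `Y` -/
noncomputable def tay (A : MvPolynomial ι R) : MvPolynomial ι (MvPolynomial ι R) :=
  aeval (fun l => (C (X l) + X l : MvPolynomial ι (MvPolynomial ι R))) A

theorem tay_add (a b : MvPolynomial ι R) : tay (a + b) = tay a + tay b := by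
  unfold tay; rw [map_add]

theorem tay_mul_X (a : MvPolynomial ι R) (n : ι) : tay (a * X n) = tay a * (C (X n) + X n) := by
  unfold tay; rw [map_mul, aeval_X]

/-- the divided derivative -/
noncomputable def DD (α : ι →₀ ℕ) (A : MvPolynomial ι R) : MvPolynomial ι R := coeff α (tay A)

theorem DD_add (α : ι →₀ ℕ) (A B : MvPolynomial ι R) : DD α (A + B) = DD α A + DD α B := by
  unfold DD tay; rw [map_add, coeff_add]

/-- Taylor's formula -/
theorem taylor_eval {S : Type*} [CommRing S] [Algebra R S] (y δ : ι → S) (A : MvPolynomial ι R) :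
    aeval (fun l => y l + δ l) A =
      ∑ α ∈ (tay A).support, aeval y (DD α A) * ∏ l ∈ α.support, δ l ^ α l := by
  have h1 : aeval (fun l => y l + δ l) A = eval₂ (aeval y : MvPolynomial ι R →ₐ[R] S).toRingHom δ
      (tay A) := by
    have h2 : ∀ B : MvPolynomial ι R, (aeval (fun l => y l + δ l) : MvPolynomial ι R →ₐ[R] S) B =
        (eval₂Hom (aeval y : MvPolynomial ι R →ₐ[R] S).toRingHom δ) (tay B) := by
      intro B
      induction B using MvPolynomial.induction_on with
      | C a => simp [tay]
      | add p q hp hq =>
        rw [map_add, hp, hq, ← map_add]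
        congr 1
        unfold tay
        rw [map_add]
      | mul_X p n hp =>
        rw [map_mul, hp, aeval_X]
        have : tay (p * X n) = tay p * (C (X n) + X n) := by
          unfold tay
          rw [map_mul, aeval_X]
        rw [this, map_mul, map_add]
        simp
    exact h2 A
  rw [h1, eval₂_eq]
  rfl

/-- total degree `n` in both sets of variables together -/
def Bi (n : ℕ) (B : MvPolynomial ι (MvPolynomial ι R)) : Prop :=
  ∀ α d, coeff d (coeff α B) ≠ 0 → d.degree + α.degree = n

theorem Bi.add {n : ℕ} {B B' : MvPolynomial ι (MvPolynomial ι R)} (h : Bi n B) (h' : Bi n B') :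
    Bi n (B + B') := by
  intro α d hd
  rw [coeff_add, coeff_add] at hd
  by_cases h1 : coeff d (coeff α B) = 0
  · rw [h1, zero_add] at hd
    exact h' α d hd
  · exact h α d h1

theorem Bi.mul {n n' : ℕ} {B B' : MvPolynomial ι (MvPolynomial ι R)} (h : Bi n B)
    (h' : Bi n' B') : Bi (n + n') (B * B') := by
  classical
  intro α d hd
  rw [coeff_mul, coeff_sum] at hd
  obtain ⟨x, hx, hx'⟩ := Finset.exists_ne_zero_of_sum_ne_zero hd
  rw [coeff_mul] at hx'
  obtain ⟨y, hy, hy'⟩ := Finset.exists_ne_zero_of_sum_ne_zero hx'
  have h1 := h x.1 y.1 (left_ne_zero_of_mul hy')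
  have h2 := h' x.2 y.2 (right_ne_zero_of_mul hy')
  rw [Finset.HasAntidiagonal.mem_antidiagonal] at hx hy
  rw [← hx, ← hy, map_add, map_add]
  omega

theorem Bi.zero (n : ℕ) : Bi n (0 : MvPolynomial ι (MvPolynomial ι R)) := by
  intro α d hd; simp at hd

theorem Bi.X_add (l : ι) : Bi 1 (C (X l) + X l : MvPolynomial ι (MvPolynomial ι R)) := by
  classical
  apply Bi.add
  · intro α d hd
    rw [coeff_C] at hd
    split_ifs at hd with h
    · rw [coeff_X] at hd
      split_ifs at hd with h'
      · rw [← h, ← h']; simp [Finsupp.degree_single]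
      · exact absurd rfl hd
    · simp at hd
  · intro α d hd
    rw [coeff_X] at hd
    split_ifs at hd with h
    · rw [coeff_one] at hd
      split_ifs at hd with h'
      · rw [← h, ← h']; simp [Finsupp.degree_single]
      · exact absurd rfl hd
    · simp at hd

theorem Bi.const (a : R) : Bi 0 (C (C a) : MvPolynomial ι (MvPolynomial ι R)) := by
  classical
  intro α d hd
  rw [coeff_C] at hd
  split_ifs at hd with h
  · rw [coeff_C] at hd
    split_ifs at hd with h'
    · rw [← h, ← h']; simp
    · exact absurd rfl hd
  · simp at hd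

theorem bi_tay_monomial (m : ι →₀ ℕ) (a : R) : Bi m.degree (tay (monomial m a)) := by
  classical
  induction m using Finsupp.induction_linear generalizing a with
  | zero =>
    have : tay (monomial (0 : ι →₀ ℕ) a) = C (C a) := by
      unfold tay
      rw [← C_apply, algHom_C]
      rfl
    rw [this]
    simpa using Bi.const a
  | add f g hf hg =>
    have h1 : monomial (f + g) a = monomial f a * monomial g 1 := by
      rw [monomial_mul, mul_one]
    rw [h1, map_add]
    have h2 : tay (monomial f a * monomial g 1) = tay (monomial f a) * tay (monomial g (1 : R)) := by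
      unfold tay; rw [map_mul]
    rw [h2]
    exact (hf a).mul (hg 1)
  | single l k =>
    have h1 : monomial (Finsupp.single l k) a = C a * X l ^ k := by
      rw [C_mul_X_pow_eq_monomial]
    have h2 : tay (C a * X l ^ k) = C (C a) * (C (X l) + X l) ^ k := by
      unfold tay
      rw [map_mul, map_pow, aeval_X, algHom_C]
      rfl
    rw [h1, h2, Finsupp.degree_single]
    have h3 : ∀ k : ℕ, Bi k ((C (X l) + X l : MvPolynomial ι (MvPolynomial ι R)) ^ k) := by
      intro k
      induction k with
      | zero =>
        have := Bi.const (ι := ι) (1 : R)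
        simpa using this
      | succ k ih => rw [pow_succ]; exact ih.mul (Bi.X_add l)
    have := (Bi.const (ι := ι) a).mul (h3 k)
    simpa using this

theorem bi_tay {A : MvPolynomial ι R} {n : ℕ} (hA : A.IsHomogeneous n) : Bi n (tay A) := by
  classical
  rw [A.as_sum]
  have h1 : tay (∑ v ∈ A.support, monomial v (coeff v A)) =
      ∑ v ∈ A.support, tay (monomial v (coeff v A)) := by
    unfold tay; rw [map_sum]
  rw [h1]
  have h2 : ∀ s : Finset (ι →₀ ℕ), s ⊆ A.support →
      Bi n (∑ v ∈ s, tay (monomial v (coeff v A))) := by
    intro s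
    induction s using Finset.induction_on with
    | empty => intro _; simpa using Bi.zero n
    | insert a s ha ih =>
      intro hs
      rw [Finset.sum_insert ha]
      refine Bi.add ?_ (ih fun x hx => hs (Finset.mem_insert_of_mem hx))
      have h3 := hs (Finset.mem_insert_self a s)
      have h4 : a.degree = n := by
        have := hA (mem_support_iff.1 h3)
        rwa [wt_one] at this
      rw [← h4]
      exact bi_tay_monomial a _
  exact h2 _ (Finset.Subset.refl _)

/-- the divided derivatives of a form are forms -/
theorem DD_hom {A : MvPolynomial ι R} {n : ℕ} (hA : A.IsHomogeneous n) (α : ι →₀ ℕ) :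
    (DD α A).IsHomogeneous (n - α.degree) := by
  intro d hd
  have := bi_tay hA α d hd
  rw [wt_one]
  omega

theorem DD_eq_zero {A : MvPolynomial ι R} {n : ℕ} (hA : A.IsHomogeneous n) {α : ι →₀ ℕ}
    (hα : n < α.degree) : DD α A = 0 := by
  ext d
  rw [coeff_zero]
  by_contra hd
  have := bi_tay hA α d hd
  omega

/-- compatibility with ring homomorphisms -/
theorem map_DD {S : Type*} [CommRing S] (f : R →+* S) (α : ι →₀ ℕ) (A : MvPolynomial ι R) :
    DD α (map f A) = map f (DD α A) := by
  have h : tay (map f A) = map (map f) (tay A) := by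
    induction A using MvPolynomial.induction_on with
    | C a =>
      unfold tay
      rw [map_C, algHom_C, algHom_C]
      simp [algebraMap_eq]
    | add p q hp hq =>
      rw [map_add, tay_add, tay_add, hp, hq, map_add]
    | mul_X p n hp =>
      rw [map_mul, map_X, tay_mul_X, tay_mul_X, hp, map_mul]
      simp
  unfold DD
  rw [h, coeff_map]

end Pool.DynLehmerTay
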