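import Mathlib
import Pool.Agent.Lib.MP_2194ec_nt.RamA
import Pool.Agent.Lib.MP_2194ec_nt.GenClose
import Pool.Agent.Lib.MP_2194ec_nt.H9.DetGain
import Pool.Agent.Lib.MP_2194ec_nt.H9.Taylor
import Pool.Agent.Lib.MP_2194ec_nt.H9.Indep

set_option autoImplicit false

/-!
# Theorem B, part (D), local statement
-/

namespace Pool.DynLehmerDet

open Module NumberField Pool.DynLehmer MvPolynomial Pool.DynLehmerTay
open Pool.DynLehmerIndep (valS valS_mono)

section rank

variable {K N : Type} [Field K] [Field N] [Algebra K N] [FiniteDimensional K N]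
  {ι : Type} [Finite ι]

omit [FiniteDimensional K N] [Finite ι] in
theorem aeval_smul_gal {G : MvPolynomial ι K} {t : ℕ} (hG : G.IsHomogeneous t) (c : N)
    (σ : N ≃ₐ[K] N) (R : ι → N) :
    aeval (c • gal σ R) G = c ^ t * σ (aeval R G) := by
  have h1 : aeval (c • gal σ R) G = c ^ t * aeval (gal σ R) G := by
    rw [aeval_def, aeval_def, eval₂_eq_eval_map, eval₂_eq_eval_map]
    exact eval_smul_hom (hG.map (algebraMap K N)) c (gal σ R)
  rw [h1]
  congr 1
  have h2 : (aeval (gal σ R) : MvPolynomial ι K →ₐ[K] N) = (σ : N →ₐ[K] N).comp (aeval R) := by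
    apply algHom_ext
    intro i
    simp [gal]
  rw [h2]
  rfl

/-- the values of forms at all conjugates of `R` have small rank -/
theorem rank_conj (R : ι → N) {H : ℕ} (G : Fin H → MvPolynomial ι K) (t : ℕ)
    (hG : ∀ b, (G b).IsHomogeneous t) {κ : Type} (c : κ → N) (σ : κ → N ≃ₐ[K] N) :
    finrank N (Submodule.span N (Set.range fun i b => aeval (c i • gal (σ i) R) (G b))) ≤
      finrank K (valS K R t) := by
  classical
  set h := finrank K (valS K R t) with hh
  let B : Basis (Fin h) K (valS K R t) := finBasis K (valS K R t)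
  have hmem : ∀ b, aeval R (G b) ∈ valS K R t := fun b => ⟨G b, hG b, rfl⟩
  set k : Fin H → Fin h → K := fun b j => B.repr ⟨_, hmem b⟩ j with hk
  have hval : ∀ b, aeval R (G b) = ∑ j, k b j • (B j : N) := by
    intro b
    have := congrArg Subtype.val (B.sum_repr ⟨_, hmem b⟩)
    rw [AddSubmonoidClass.coe_finsetSum] at this
    exact this.symm
  have hsub : Submodule.span N (Set.range fun i b => aeval (c i • gal (σ i) R) (G b)) ≤
      Submodule.span N (Set.range fun (j : Fin h) (b : Fin H) => algebraMap K N (k b j)) := by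
    rw [Submodule.span_le]
    rintro _ ⟨i, rfl⟩
    have h1 : (fun b => aeval (c i • gal (σ i) R) (G b)) =
        ∑ j, (c i ^ t * σ i (B j : N)) • (fun b => algebraMap K N (k b j)) := by
      funext b
      rw [aeval_smul_gal (hG b), hval b, Finset.sum_apply, map_sum, Finset.mul_sum]
      refine Finset.sum_congr rfl fun j _ => ?_
      rw [Pi.smul_apply, smul_eq_mul, map_smul, Algebra.smul_def]
      ring
    change (fun b => aeval (c i • gal (σ i) R) (G b)) ∈ _
    rw [h1]
    exact Submodule.sum_mem _ fun j _ => Submodule.smul_mem _ _ (Submodule.subset_span ⟨j, rfl⟩)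
  refine (Submodule.finrank_mono hsub).trans ?_
  have := finrank_range_le_card (R := N) (b := fun (j : Fin h) (b : Fin H) => algebraMap K N (k b j))
  rw [Fintype.card_fin] at this
  exact this

end rank

section loc

variable {K N : Type} [Field K] [Field N] [NumberField N] [Algebra K N] [FiniteDimensional K N]
  {ι : Type} [Fintype ι] [DecidableEq ι] [Nonempty ι] (w : FinitePlace N)

/-- the exponents of the Taylor expansion in the chart `k0` -/
def idxA (k0 : ι) (a : ℕ) : Finset (ι →₀ ℕ) :=
  (Finset.range a).biUnion fun d => (Finset.univ.erase k0).finsuppAntidiag d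

omit [Nonempty ι] in
theorem mem_idxA {k0 : ι} {a : ℕ} {α : ι →₀ ℕ} : α ∈ idxA k0 a ↔ α k0 = 0 ∧ α.degree < a := by
  unfold idxA
  rw [Finset.mem_biUnion]
  constructor
  · rintro ⟨d, hd, h⟩
    rw [Finset.mem_finsuppAntidiag] at h
    have h1 : α k0 = 0 := by
      by_contra hne
      have := h.2 (Finsupp.mem_support_iff.2 hne)
      exact (Finset.mem_erase.1 this).1 rfl
    refine ⟨h1, ?_⟩
    rw [Finsupp.degree_eq_sum, ← Finset.add_sum_erase _ _ (Finset.mem_univ k0), h1, zero_add, h.1]
    exact Finset.mem_range.1 hd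
  · rintro ⟨h1, h2⟩
    refine ⟨α.degree, Finset.mem_range.2 h2, ?_⟩
    rw [Finset.mem_finsuppAntidiag]
    constructor
    · rw [Finsupp.degree_eq_sum, ← Finset.add_sum_erase _ _ (Finset.mem_univ k0), h1, zero_add]
    · intro l hl
      rw [Finset.mem_erase]
      refine ⟨?_, Finset.mem_univ _⟩
      rintro rfl
      exact (Finsupp.mem_support_iff.1 hl) h1

omit [Nonempty ι] in
theorem card_idxA (k0 : ι) (a : ℕ) : (idxA k0 a).card ≤ a ^ (Fintype.card ι - 1) := by
  classical
  have h1 : Fintype.card ({l : ι // l ≠ k0} → Fin a) = a ^ (Fintype.card ι - 1) := by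
    rw [Fintype.card_fun, Fintype.card_fin]
    congr 1
    rw [Fintype.card_subtype_compl, Fintype.card_subtype_eq]
  rw [← h1, ← Fintype.card_coe]
  have hlt : ∀ (α : ι →₀ ℕ), α ∈ idxA k0 a → ∀ l, α l < a := by
    intro α hα l
    rw [mem_idxA] at hα
    refine lt_of_le_of_lt ?_ hα.2
    rw [Finsupp.degree_eq_sum]
    exact Finset.single_le_sum (fun _ _ => Nat.zero_le _) (Finset.mem_univ l)
  refine Fintype.card_le_of_injective
    (fun (α : {α // α ∈ idxA k0 a}) (l : {l : ι // l ≠ k0}) => (⟨α.1 l, hlt α.1 α.2 l⟩ : Fin a)) ?_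
  intro α β h
  apply Subtype.ext
  ext l
  by_cases hl : l = k0
  · rw [hl, (mem_idxA.1 α.2).1, (mem_idxA.1 β.2).1]
  · have := congrFun h ⟨l, hl⟩
    exact congrArg Fin.val this

omit [Nonempty ι] [Fintype ι] [DecidableEq ι] in
theorem w_prod_pow_le {δ : ι → N} {t : ℝ} (hδ : ∀ l, w (δ l) ≤ t)
    (α : ι →₀ ℕ) : w (∏ l ∈ α.support, δ l ^ α l) ≤ t ^ α.degree := by
  rw [map_prod, Finsupp.degree_apply, ← Finset.prod_pow_eq_pow_sum]
  refine Finset.prod_le_prod (fun l _ => apply_nonneg w _) fun l _ => ?_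
  rw [map_pow]
  exact pow_le_pow_left₀ (apply_nonneg w _) (hδ l) _

omit [FiniteDimensional K N] [Nonempty ι] [DecidableEq ι] in
theorem w_aeval_le {G : MvPolynomial ι K} (hG : ∀ d, w (algebraMap K N (coeff d G)) ≤ 1)
    {y : ι → N} (hy : ∀ l, w (y l) ≤ 1) : w (aeval y G) ≤ 1 := by
  rw [aeval_def, eval₂_eq']
  refine finitePlace_sum_le w _ _ _ zero_le_one fun d _ => ?_
  rw [map_mul, map_prod]
  refine mul_le_one₀ (hG d) (Finset.prod_nonneg fun _ _ => apply_nonneg w _) ?_
  refine Finset.prod_le_one (fun _ _ => apply_nonneg w _) fun l _ => ?_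
  rw [map_pow]
  exact pow_le_one₀ (apply_nonneg w _) (hy l)

omit [FiniteDimensional K N] [Nonempty ι] [DecidableEq ι] [Fintype ι] in
/-- the divided derivatives are integral -/
theorem w_DD_le {G : MvPolynomial ι K} (hG : ∀ d, w (algebraMap K N (coeff d G)) ≤ 1)
    (α : ι →₀ ℕ) (d : ι →₀ ℕ) : w (algebraMap K N (coeff d (DD α G))) ≤ 1 := by
  classical
  -- `G` comes from the valuation ring
  set f := algebraMap K N with hf
  have h1 : ∃ G0 : MvPolynomial ι (OW w), map (OW w).subtype G0 = map f G := by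
    refine ⟨∑ d ∈ G.support, monomial d ⟨f (coeff d G), hG d⟩, ?_⟩
    conv_rhs => rw [G.as_sum]
    rw [map_sum, map_sum]
    refine Finset.sum_congr rfl fun d _ => ?_
    rw [map_monomial, map_monomial]
    rfl
  obtain ⟨G0, hG0⟩ := h1
  have h2 : map f (DD α G) = map (OW w).subtype (DD α G0) := by
    rw [← map_DD, ← map_DD, hG0]
  have h3 : f (coeff d (DD α G)) = ((coeff d (DD α G0) : OW w) : N) := by
    have := congrArg (coeff d) h2
    rw [coeff_map, coeff_map] at this
    exact this
  rw [h3]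
  exact (coeff d (DD α G0)).2

omit [FiniteDimensional K N] [Nonempty ι] [DecidableEq ι] [NumberField N] [Fintype ι] in
theorem aeval_smul_hom {G : MvPolynomial ι K} {t : ℕ} (hG : G.IsHomogeneous t) (c : N)
    (y : ι → N) : aeval (c • y) G = c ^ t * aeval y G := by
  rw [aeval_def, aeval_def, eval₂_eq_eval_map, eval₂_eq_eval_map]
  exact eval_smul_hom (hG.map (algebraMap K N)) c y

/-- **The local bound of Theorem B.** -/
theorem loc_gain {H T a h : ℕ} (A : Fin H → MvPolynomial ι K) (hA : ∀ b, (A b).IsHomogeneous T)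
    (hint : ∀ b d, w (algebraMap K N (coeff d (A b))) ≤ 1) (R : ι → N) (hR : R ≠ 0)
    (hh : finrank K (valS K R T) ≤ h) (z : Fin H → ι → N) (σ : Fin H → N ≃ₐ[K] N) {t : ℝ}
    (ht0 : 0 ≤ t) (ht1 : t < 1) (hclose : ∀ i, Close w t (z i) (gal (σ i) R)) :
    w (Matrix.of fun i b => aeval (z i) (A b)).det ≤ (∏ i, (⨆ l, w (z i l)) ^ T) *
      (t ^ a) ^ (H - Fintype.card ι * (a ^ (Fintype.card ι - 1) * h)) := by
  classical
  -- the charts
  have hk0 : ∀ i, ∃ k, ∀ l, w (z i l) ≤ w (z i k) := fun i =>
    Finite.exists_max (fun l => w (z i l))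
  choose k hk using hk0
  have hch := fun i => (hclose i).chart ht1 (hk i)
  set y : Fin H → ι → N := fun i l => gal (σ i) R l / gal (σ i) R (k i) with hy
  set δ : Fin H → ι → N := fun i l => z i l / z i (k i) - y i l with hδ
  have hδt : ∀ i l, w (δ i l) ≤ t := fun i l => (hch i).2.2.2 l
  have hδ0 : ∀ i, δ i (k i) = 0 := by
    intro i
    simp only [hδ, hy]
    rw [div_self (hch i).2.1, div_self (hch i).2.2.1, sub_self]
  have hy1 : ∀ i l, w (y i l) ≤ 1 := by
    intro i l
    simp only [hy]
    rw [map_div₀]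
    exact div_le_one_of_le₀ ((hch i).1 l) (apply_nonneg w _)
  -- the families of functionals
  set cc : ι → Fin H → N := fun k0 i => if k i = k0 then (gal (σ i) R k0)⁻¹ else 0 with hcc
  have hcc1 : ∀ i, cc (k i) i • gal (σ i) R = y i := by
    intro i
    funext l
    simp only [hcc, if_true, Pi.smul_apply, smul_eq_mul, hy]
    rw [div_eq_inv_mul]
  have hccw : ∀ k0 i l, w ((cc k0 i • gal (σ i) R) l) ≤ 1 := by
    intro k0 i l
    by_cases hki : k i = k0
    · rw [← hki, hcc1]; exact hy1 i l
    · simp only [hcc, if_neg hki, zero_smul, Pi.zero_apply, map_zero]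
      exact zero_le_one
  set f : ι → (ι →₀ ℕ) → Fin H → Fin H → N :=
    fun k0 α i b => aeval (cc k0 i • gal (σ i) R) (DD α (A b)) with hf
  set hr : ι → (ι →₀ ℕ) → ℕ := fun k0 α =>
    finrank N (Submodule.span N (Set.range (f k0 α))) with hhr
  have hrank : ∀ k0 α, hr k0 α ≤ h := by
    intro k0 α
    refine le_trans ?_ hh
    refine le_trans (rank_conj R (fun b => DD α (A b)) (T - α.degree) (fun b => DD_hom (hA b) α)
      (cc k0) σ) ?_
    exact valS_mono hR (Nat.sub_le _ _)
  have hbas := fun k0 α => exists_integral_basis w (f k0 α) (h := hr k0 α) rfl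
  choose e he using hbas
  choose c hc1 hc2 using he
  -- the index set
  let E : Type := (k0 : ι) × (α : {α // α ∈ idxA k0 a}) × Fin (hr k0 α.1)
  have hEcard : Fintype.card E ≤ Fintype.card ι * (a ^ (Fintype.card ι - 1) * h) := by
    rw [Fintype.card_sigma]
    calc ∑ k0 : ι, Fintype.card ((α : {α // α ∈ idxA k0 a}) × Fin (hr k0 α.1))
        ≤ ∑ _k0 : ι, a ^ (Fintype.card ι - 1) * h := by
          refine Finset.sum_le_sum fun k0 _ => ?_
          rw [Fintype.card_sigma]
          calc ∑ α : {α // α ∈ idxA k0 a}, Fintype.card (Fin (hr k0 α.1))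
              ≤ ∑ _α : {α // α ∈ idxA k0 a}, h := by
                refine Finset.sum_le_sum fun α _ => ?_
                rw [Fintype.card_fin]
                exact hrank k0 α.1
            _ = (idxA k0 a).card * h := by
                rw [Finset.sum_const, Finset.card_univ, Fintype.card_coe, smul_eq_mul]
            _ ≤ _ := Nat.mul_le_mul_right _ (card_idxA k0 a)
      _ = _ := by rw [Finset.sum_const, Finset.card_univ, smul_eq_mul]
  set B : Fin H → Fin H → N := fun i b => aeval (fun l => y i l + δ i l) (A b) with hB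
  set eE : E → Fin H → N := fun x => f x.1 x.2.1.1 (e x.1 x.2.1.1 x.2.2) with heE
  set cE : Fin H → E → N := fun i x =>
    if k i = x.1 then (∏ l ∈ x.2.1.1.support, δ i l ^ x.2.1.1 l) * c x.1 x.2.1.1 i x.2.2 else 0
    with hcE
  set g : Fin H → Fin H → (ι →₀ ℕ) → N := fun i b α =>
    aeval (y i) (DD α (A b)) * ∏ l ∈ α.support, δ i l ^ α l with hg
  have hsum : ∀ i b, ∑ x : E, cE i x * eE x b = ∑ α ∈ idxA (k i) a, g i b α := by
    intro i b
    rw [Fintype.sum_sigma, Finset.sum_eq_single (k i)]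
    · rw [Fintype.sum_sigma, ← Finset.sum_coe_sort (idxA (k i) a) (fun α => g i b α)]
      refine Finset.sum_congr rfl fun α _ => ?_
      have h1 : f (k i) α.1 i = ∑ j, c (k i) α.1 i j • f (k i) α.1 (e (k i) α.1 j) := hc2 _ _ i
      have h2 := congrFun h1 b
      rw [Finset.sum_apply] at h2
      simp only [hg]
      have h3 : aeval (y i) (DD α.1 (A b)) = f (k i) α.1 i b := by
        simp only [hf]; rw [hcc1]
      rw [h3, h2, Finset.sum_mul]
      refine Finset.sum_congr rfl fun j _ => ?_
      simp only [hcE, heE, if_true, Pi.smul_apply, smul_eq_mul]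
      ring
    · intro k0 _ hk0
      apply Finset.sum_eq_zero
      intro x _
      simp only [hcE, if_neg (Ne.symm hk0), zero_mul]
    · intro hne; exact absurd (Finset.mem_univ _) hne
  have hBexp : ∀ i b, B i b = ∑ α ∈ (tay (A b)).support ∪ idxA (k i) a, g i b α := by
    intro i b
    simp only [hB]
    rw [taylor_eval]
    refine Finset.sum_subset Finset.subset_union_left fun α _ hα => ?_
    have : DD α (A b) = 0 := by
      unfold DD
      exact notMem_support_iff.1 hα
    rw [this, map_zero, zero_mul]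
  have hdiff : ∀ i b, w (B i b - ∑ x : E, cE i x * eE x b) ≤ t ^ a := by
    intro i b
    rw [hsum, hBexp, ← Finset.sum_sdiff (Finset.subset_union_right (s₁ := (tay (A b)).support)
      (s₂ := idxA (k i) a)), add_sub_cancel_right]
    refine finitePlace_sum_le w _ _ _ (pow_nonneg ht0 _) fun α hα => ?_
    rw [Finset.mem_sdiff, mem_idxA, not_and_or] at hα
    simp only [hg]
    rcases hα.2 with h1 | h1
    · have h2 : ∏ l ∈ α.support, δ i l ^ α l = 0 := by
        apply Finset.prod_eq_zero (Finsupp.mem_support_iff.2 h1 : k i ∈ α.support)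
        rw [hδ0, zero_pow h1]
      rw [h2, mul_zero, map_zero]
      exact pow_nonneg ht0 _
    · rw [map_mul]
      have h2 : w (aeval (y i) (DD α (A b))) ≤ 1 := w_aeval_le w (w_DD_le w (hint b) α) (hy1 i)
      have h3 := w_prod_pow_le w (hδt i) α
      calc w (aeval (y i) (DD α (A b))) * w (∏ l ∈ α.support, δ i l ^ α l)
          ≤ 1 * t ^ α.degree := mul_le_mul h2 h3 (apply_nonneg w _) zero_le_one
        _ = t ^ α.degree := one_mul _
        _ ≤ t ^ a := pow_le_pow_of_le_one ht0 ht1.le (not_lt.1 h1)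
  have hgain := det_gain w B eE cE (fun i b => B i b - ∑ x : E, cE i x * eE x b)
    (pow_nonneg ht0 a) (pow_le_one₀ ht0 ht1.le) (fun i b => by ring)
    (fun x b => w_aeval_le w (w_DD_le w (hint b) x.2.1.1) (hccw _ _)) (fun i x => by
      simp only [hcE]
      split_ifs with hx
      · rw [map_mul]
        refine mul_le_one₀ ?_ (apply_nonneg w _) (hc1 _ _ _ _)
        exact (w_prod_pow_le w (hδt i) _).trans (pow_le_one₀ ht0 ht1.le)
      · rw [map_zero]; exact zero_le_one) hdiff
  -- back to `z`
  have hdet : (Matrix.of fun i b => aeval (z i) (A b)).det =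
      (∏ i, z i (k i) ^ T) * (Matrix.of B).det := by
    rw [← Matrix.det_mul_column]
    congr 1
    ext i b
    simp only [Matrix.of_apply, hB]
    have h1 : z i = z i (k i) • fun l => y i l + δ i l := by
      funext l
      simp only [Pi.smul_apply, smul_eq_mul, hδ]
      rw [add_sub_cancel, mul_div_cancel₀ _ (hch i).2.1]
    conv_lhs => rw [h1]
    exact aeval_smul_hom (hA b) _ _
  rw [hdet, map_mul, map_prod]
  refine mul_le_mul ?_ ?_ (apply_nonneg w _) (Finset.prod_nonneg fun i _ => pow_nonneg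
    (Real.iSup_nonneg fun l => apply_nonneg w _) _)
  · refine Finset.prod_le_prod (fun i _ => apply_nonneg w _) fun i _ => ?_
    rw [map_pow]
    exact pow_le_pow_left₀ (apply_nonneg w _) (Finite.le_ciSup (fun l => w (z i l)) (k i)) _
  · refine hgain.trans (pow_le_pow_of_le_one (pow_nonneg ht0 a) (pow_le_one₀ ht0 ht1.le) ?_)
    omega

end loc

end Pool.DynLehmerDet
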